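import Pool.Agent.Lib_helper15.RBL.Main

/-!
# Rubin's conjecture for Kummer extensions with arbitrary abelian groups: the radicands
-/

namespace Pool.Agent.AKG

open NumberField IsDedekindDomain

/-- `n = lcm(q_1, …, q_k)`. For all `i` and the prime `p` dividing `q_i`, let `p ^ e` and `p ^ f` be
the exact powers of `p` in `q_1 ⋯ q_k` and in `n`. More than `p ^ (f - 1) ((e - f) (p - 1) + 1)` finite
places `v` of `F₀` such that `N v ≡ -1` modulo `n`, or such that `v ∤ n` if `n` is a power of `p`,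
divide `a_i` exactly once and do not divide any `a_j`, `j ≠ i`. -/
def Many {F₀ : Type} [Field F₀] [NumberField F₀] {k : ℕ} (q : Fin k → ℕ)
    (a : Fin k → RingOfIntegers F₀) : Prop :=
  ∀ (i : Fin k) (p e f : ℕ), p.Prime → p ∣ q i → (∏ j, q j).factorization p = e →
    (Finset.univ.lcm q).factorization p = f →
    ∃ s : Finset (HeightOneSpectrum (RingOfIntegers F₀)),
      p ^ (f - 1) * ((e - f) * (p - 1) + 1) < s.card ∧ ∀ v ∈ s,
        (Finset.univ.lcm q ∣ Ideal.absNorm v.asIdeal + 1 ∨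
          IsPrimePow (Finset.univ.lcm q) ∧
            (Ideal.absNorm v.asIdeal).Coprime (Finset.univ.lcm q)) ∧
        a i ∈ v.asIdeal ∧ a i ∉ v.asIdeal ^ 2 ∧ ∀ j, j ≠ i → a j ∉ v.asIdeal

end Pool.Agent.AKG
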