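import Pool.Agent.Lib_helper24.AKG.Defs

/-! Block V1 (project AK, MP_dd9835_nt): places prime to `n` are unramified in the cyclotomic
extension of level `n`. -/

namespace Pool.Agent.AKG

open NumberField IsDedekindDomain
open scoped Pointwise

/-- distinct roots of unity of order dividing `n` are distinct modulo a place not dividing `n` -/
theorem V1_roots {R : Type*} [CommRing R] [IsDomain R] (I : Ideal R) [I.IsPrime] {n : ℕ}
    (hn : 0 < n) (hI : (n : R) ∉ I) {x y : R} (hx : x ^ n = 1) (hy : y ^ n = 1)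
    (hxy : x - y ∈ I) : x = y := by
  by_contra hne
  have h1 := (Commute.all x y).geom_sum₂_mul n
  rw [hx, hy, sub_self, mul_eq_zero, sub_eq_zero] at h1
  have h2 := h1.resolve_right hne
  apply hI
  have h3 := congrArg (Ideal.Quotient.mk I) h2
  have hq : Ideal.Quotient.mk I x = Ideal.Quotient.mk I y := Ideal.Quotient.eq.2 hxy
  simp only [map_sum, map_mul, map_pow, map_zero, hq] at h3
  rw [geom_sum₂_self] at h3
  have h4 : (Ideal.Quotient.mk I y) ^ (n - 1) ≠ 0 := by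
    intro h
    have : (Ideal.Quotient.mk I y) ^ n = 0 := by
      rw [← Nat.sub_add_cancel hn, pow_succ, h, zero_mul]
    rw [← map_pow, hy, map_one] at this
    exact one_ne_zero this
  have h5 := (mul_eq_zero.1 h3).resolve_right h4
  rw [← map_natCast (Ideal.Quotient.mk I), Ideal.Quotient.eq_zero_iff_mem] at h5
  exact h5

theorem v1 {F₀ F : Type} [Field F₀] [NumberField F₀] [Field F] [NumberField F] [Algebra F₀ F]
    {n : ℕ} (hn : 0 < n) (hF : IsCyclotomicExtension {n} F₀ F) {V : HeightOneSpectrum (𝓞 F)}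
    (hV : (Ideal.absNorm (V.under (𝓞 F₀)).asIdeal).Coprime n) :
    Algebra.IsUnramifiedAt (𝓞 F₀) V.asIdeal := by
  classical
  have : NeZero n := ⟨hn.ne'⟩
  have hG : IsGalois F₀ F := IsCyclotomicExtension.isGalois {n} F₀ F
  have hlo : V.asIdeal.LiesOver (V.under (𝓞 F₀)).asIdeal := ⟨rfl⟩
  have hVm := V.isMaximal
  have hVp := V.isPrime
  have hvm := (V.under (𝓞 F₀)).isMaximal
  -- `n` is not in `V`
  have hnV : ((n : ℕ) : 𝓞 F) ∉ V.asIdeal := by
    intro h
    have h1 : ((n : ℕ) : 𝓞 F₀) ∈ (V.under (𝓞 F₀)).asIdeal := by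
      show algebraMap (𝓞 F₀) (𝓞 F) (n : 𝓞 F₀) ∈ V.asIdeal
      rwa [map_natCast]
    have h2 := Ideal.absNorm_mem (V.under (𝓞 F₀)).asIdeal
    apply hvm.ne_top
    rw [Ideal.eq_top_iff_one]
    have h3 := Nat.Coprime.isCoprime hV
    obtain ⟨a, b, hab⟩ := h3
    have h4 : ((a * (Ideal.absNorm (V.under (𝓞 F₀)).asIdeal : ℤ) + b * (n : ℤ) : ℤ) : 𝓞 F₀) ∈
        (V.under (𝓞 F₀)).asIdeal := by
      push_cast
      exact Ideal.add_mem _ (Ideal.mul_mem_left _ _ h2) (Ideal.mul_mem_left _ _ h1)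
    rw [hab] at h4
    simpa using h4
  have hζ := IsCyclotomicExtension.zeta_spec n F₀ F
  set ζ := IsCyclotomicExtension.zeta n F₀ F with hζd
  -- trivial inertia
  have key : ∀ σ : F ≃ₐ[F₀] F, σ ∈ V.asIdeal.inertia (F ≃ₐ[F₀] F) → σ = 1 := by
    intro σ hσ
    have h1 : σ • hζ.toInteger - hζ.toInteger ∈ V.asIdeal := hσ hζ.toInteger
    have hz : hζ.toInteger ^ n = 1 := by
      apply FaithfulSMul.algebraMap_injective (𝓞 F) F
      rw [map_pow, map_one]
      exact hζ.pow_eq_one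
    have hsz : (σ • hζ.toInteger) ^ n = 1 := by
      rw [← smul_pow', hz, smul_one]
    have h2 := V1_roots V.asIdeal hn hnV hsz hz h1
    have h3 : σ ζ = ζ := congrArg (fun x : 𝓞 F => (x : F)) h2
    have h4 : Algebra.adjoin F₀ {ζ} = ⊤ :=
      IsCyclotomicExtension.adjoin_primitive_root_eq_top hζ
    have h5 : (σ : F →ₐ[F₀] F) = AlgHom.id F₀ F := by
      apply AlgHom.ext_of_adjoin_eq_top h4
      intro x hx
      rw [Set.mem_singleton_iff] at hx
      subst hx
      exact h3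
    ext x
    exact DFunLike.congr_fun h5 x
  have h1 : Nat.card (V.asIdeal.inertia (F ≃ₐ[F₀] F)) = 1 := by
    rw [Nat.card_eq_one_iff_unique]
    exact ⟨⟨fun σ τ => Subtype.ext ((key _ σ.2).trans (key _ τ.2).symm)⟩, ⟨1⟩⟩
  have h2 := Ideal.card_inertia_eq_ramificationIdxIn (G := (F ≃ₐ[F₀] F))
    (V.under (𝓞 F₀)).asIdeal V.asIdeal
  rw [h1, Ideal.ramificationIdxIn_eq_ramificationIdx (V.under (𝓞 F₀)).asIdeal V.asIdeal
    (F ≃ₐ[F₀] F)] at h2
  rw [← Ideal.ramificationIdx_eq_one_iff]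
  exact h2.symm

end Pool.Agent.AKG
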