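import Pool.Agent.Lib_helper24.AKG.Defs

/-! AKG, block V2: valuations of algebraic integers. -/

namespace Pool.Agent.AKG
open NumberField IsDedekindDomain

theorem v2 {F : Type} [Field F] [NumberField F] (v : HeightOneSpectrum (𝓞 F)) (a : 𝓞 F) :
    (a ∉ v.asIdeal → RSK.ordv v (a : F) = 0) ∧
      (a ∈ v.asIdeal → a ∉ v.asIdeal ^ 2 → RSK.ordv v (a : F) = 1) := by
  have hval : v.valuation F (a : F) = v.intValuation a := HeightOneSpectrum.valuation_of_algebraMap v a
  constructor
  · intro h
    unfold RSK.ordv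
    rw [hval, HeightOneSpectrum.intValuation_eq_one_iff.2 h]
    simp
  · intro h1 h2
    have hne : a ≠ 0 := by
      rintro rfl
      exact h2 (Ideal.zero_mem _)
    have hv0 : v.intValuation a ≠ 0 := HeightOneSpectrum.intValuation_ne_zero v a hne
    have l1 : v.intValuation a ≤ WithZero.exp (-((1 : ℕ) : ℤ)) :=
      (HeightOneSpectrum.intValuation_le_pow_iff_mem v a 1).2 (by rwa [pow_one])
    have l2 : ¬ v.intValuation a ≤ WithZero.exp (-((2 : ℕ) : ℤ)) := fun h =>
      h2 ((HeightOneSpectrum.intValuation_le_pow_iff_mem v a 2).1 h)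
    rw [← WithZero.log_le_iff_le_exp hv0] at l1 l2
    unfold RSK.ordv
    rw [hval]
    push_cast at l1 l2
    omega

end Pool.Agent.AKG
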