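import Pool.Agent.Lib_helper24.AKG.P_D5
import Pool.Agent.Lib_helper24.AKG.P_V1
import Pool.Agent.Lib_helper24.AKG.P_V2
namespace Pool.Agent.AKG
open NumberField IsDedekindDomain

/-- a place of `F` above a place which divides `a` exactly once ramifies in `H` -/
theorem c1_ram {F₀ F H : Type} [Field F₀] [NumberField F₀] [Field F] [NumberField F] [Field H]
    [NumberField H] [Algebra F₀ F] [Algebra F₀ H] [Algebra F H] [IsScalarTower F₀ F H]
    {n : ℕ} (hn : 0 < n) (hF : IsCyclotomicExtension {n} F₀ F) {m : ℕ} (hm : 2 ≤ m)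
    {a : 𝓞 F₀} {b : H} (hb : b ^ m = algebraMap F₀ H (a : F₀))
    (V : HeightOneSpectrum (𝓞 F)) (hV : (Ideal.absNorm (V.under (𝓞 F₀)).asIdeal).Coprime n)
    (ha : a ∈ (V.under (𝓞 F₀)).asIdeal) (ha2 : a ∉ (V.under (𝓞 F₀)).asIdeal ^ 2)
    (W : HeightOneSpectrum (𝓞 H)) (hW : W.under (𝓞 F) = V) :
    ¬ Algebra.IsUnramifiedAt (𝓞 F) W.asIdeal := by
  have h1 := v1 hn hF hV
  have h2 : RSK.ordv V (algebraMap F₀ F (a : F₀)) = 1 := by
    rw [RSK.ordv_unr h1]
    exact (v2 _ a).2 ha ha2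
  refine KR.root_ram hm (a := algebraMap F₀ F (a : F₀)) (b := b) ?_ ?_
  · rw [hb, IsScalarTower.algebraMap_apply F₀ F H]
  · rw [hW]
    exact h2

/-- the number of places in `S` with a nontrivial `p`-group as decomposition group -/
theorem c1 {F₀ F H : Type} [Field F₀] [NumberField F₀] [Field F] [NumberField F] [Field H]
    [NumberField H] [Algebra F₀ F] [Algebra F₀ H] [Algebra F H] [IsScalarTower F₀ F H]
    [IsGalois F H] {k : ℕ} (q : Fin k → ℕ) (hq : ∀ i, IsPrimePow (q i))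
    (hF : IsCyclotomicExtension {Finset.univ.lcm q} F₀ F) {a : Fin k → 𝓞 F₀} {b : Fin k → H}
    (hb : ∀ i, b i ^ q i = algebraMap F₀ H (a i : F₀))
    (hgen : IntermediateField.adjoin F (Set.range b) = ⊤) (i : Fin k)
    {s : Finset (HeightOneSpectrum (𝓞 F₀))} (hs : ∀ v ∈ s,
      (Finset.univ.lcm q ∣ Ideal.absNorm v.asIdeal + 1 ∨ IsPrimePow (Finset.univ.lcm q) ∧
        (Ideal.absNorm v.asIdeal).Coprime (Finset.univ.lcm q)) ∧
      a i ∈ v.asIdeal ∧ a i ∉ v.asIdeal ^ 2 ∧ ∀ j, j ≠ i → a j ∉ v.asIdeal)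
    {p : ℕ} (hp : p.Prime) (hpi : p ∣ q i)
    {G : Type} [CommGroup G] [Fintype G] {ι : MulEquiv G (AlgEquiv F H H)}
    {S : Finset (InfinitePlace F ⊕ HeightOneSpectrum (RingOfIntegers F))}
    {T : Finset (HeightOneSpectrum (RingOfIntegers F))} {r : ℕ}
    {w : Fin r → InfinitePlace H ⊕ HeightOneSpectrum (RingOfIntegers H)}
    {fr : HeightOneSpectrum (RingOfIntegers F) → G} (hD : RB.Data ι S T w fr) :
    s.card ≤ Nat.card {v : RSK.Pl F // v ∈ S ∧ RB.Dg ι v ≠ ⊥ ∧ IsPGroup p (RB.Dg ι v)} := by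
  classical
  have hn : 0 < Finset.univ.lcm q := by
    rw [Nat.pos_iff_ne_zero]
    intro h
    rw [Finset.lcm_eq_zero_iff] at h
    obtain ⟨j, -, hj⟩ := h
    exact (hq j).ne_zero hj
  have hNZ : NeZero (Finset.univ.lcm q) := ⟨hn.ne'⟩
  have hζ := IsCyclotomicExtension.zeta_spec (Finset.univ.lcm q) F₀ F
  choose V hV using fun v : HeightOneSpectrum (𝓞 F₀) => KR.exists_W F v
  have hcop : ∀ v ∈ s, (Ideal.absNorm v.asIdeal).Coprime (Finset.univ.lcm q) := by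
    intro v hv
    rcases (hs v hv).1 with h | h
    · have h1 : Nat.Coprime (Ideal.absNorm v.asIdeal) (Ideal.absNorm v.asIdeal + 1) := by simp
      exact Nat.Coprime.coprime_dvd_right h h1
    · exact h.2
  have hram : ∀ v ∈ s, ∀ W : HeightOneSpectrum (𝓞 H), W.under (𝓞 F) = V v →
      ¬ Algebra.IsUnramifiedAt (𝓞 F) W.asIdeal := by
    intro v hv W hW
    obtain ⟨-, h1, h2, -⟩ := hs v hv
    exact c1_ram hn hF (hq i).two_le (hb i) (V v) (by rw [hV]; exact hcop v hv)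
      (by rw [hV]; exact h1) (by rw [hV]; exact h2) W hW
  have key : ∀ v : s, (Sum.inr (V v.1) : RSK.Pl F) ∈ S ∧ RB.Dg ι (Sum.inr (V v.1)) ≠ ⊥ ∧
      IsPGroup p (RB.Dg ι (Sum.inr (V v.1))) := by
    rintro ⟨v, hv⟩
    obtain ⟨W, hW⟩ := KR.exists_W H (V v)
    refine ⟨?_, ?_, ?_⟩
    · by_contra hS
      exact hram v hv W hW (hD.unram W (by rw [hW]; exact hS))
    · intro hbot
      refine hram v hv W hW (KR.unr_of_split fun σ hσ => ?_)
      obtain ⟨g, rfl⟩ := ι.surjective σ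
      have h1 : g ∈ CR.dgF ι (RSK.dn F (Sum.inr W : RSK.Pl H)) := (CR.dgF_eq _ _).2 hσ
      have h2 : RSK.dn F (Sum.inr W : RSK.Pl H) = Sum.inr (V v) := by
        rw [← hW]
        rfl
      rw [h2, ← RB.dg_eq, hbot, Subgroup.mem_bot] at h1
      rw [h1, map_one]
    · refine d5 q hq hζ hb hgen i (V v) ?_ ?_ hp hpi ι
      · rw [hV]
        rcases (hs v hv).1 with h | h
        · exact Or.inl h
        · exact Or.inr h.1
      · rw [hV]
        exact (hs v hv).2.2.2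
  have h6 : Finite {v : RSK.Pl F // v ∈ S ∧ RB.Dg ι v ≠ ⊥ ∧ IsPGroup p (RB.Dg ι v)} :=
    Set.Finite.subset S.finite_toSet (fun v hv => hv.1)
  have h7 := Nat.card_le_card_of_injective
    (fun v : s => (⟨Sum.inr (V v.1), key v⟩ :
      {v : RSK.Pl F // v ∈ S ∧ RB.Dg ι v ≠ ⊥ ∧ IsPGroup p (RB.Dg ι v)})) (by
      intro v v' hvv
      have h8 : V v.1 = V v'.1 := Sum.inr.inj (congrArg Subtype.val hvv)
      have h9 : v.1 = v'.1 := by rw [← hV v.1, ← hV v'.1, h8]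
      exact Subtype.ext h9)
  rwa [Nat.card_eq_fintype_card, Fintype.card_coe] at h7

end Pool.Agent.AKG
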