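import Pool.Agent.Lib_helper24.AKG.Defs

set_option autoImplicit false

namespace Pool.Agent.AKG
open NumberField IsDedekindDomain

/-- the element with given coordinates modulo `l ^ 2` -/
noncomputable def e2elt {K : Type} [Field K] [NumberField K] {d : ℕ} {l : ℕ}
    (ω : Module.Basis (Fin d) ℤ (𝓞 K)) (z : Fin d → ZMod (l ^ 2)) : 𝓞 K :=
  ∑ t, ((z t).val : ℤ) • ω t

theorem e2_mem {K : Type} [Field K] [NumberField K] {d : ℕ} {l : ℕ} (hl : 0 < l)
    (ω : Module.Basis (Fin d) ℤ (𝓞 K)) {J : Ideal (𝓞 K)} (hJ : ((l : 𝓞 K)) ^ 2 ∈ J)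
    (c : Fin d → ℤ) : e2elt (l := l) ω (fun t => ((c t : ℤ) : ZMod (l ^ 2))) -
      ∑ t, c t • ω t ∈ J := by
  have hne : NeZero (l ^ 2) := ⟨(pow_pos hl 2).ne'⟩
  unfold e2elt
  rw [← Finset.sum_sub_distrib]
  refine Ideal.sum_mem _ fun t _ => ?_
  rw [← sub_smul]
  obtain ⟨e, he⟩ : ((l ^ 2 : ℕ) : ℤ) ∣ (((c t : ℤ) : ZMod (l ^ 2)).val : ℤ) - c t := by
    rw [← ZMod.intCast_zmod_eq_zero_iff_dvd]
    push_cast
    rw [ZMod.natCast_zmod_val, sub_self]
  rw [he, zsmul_eq_mul]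
  push_cast
  exact Ideal.mul_mem_right _ _ (Ideal.mul_mem_right _ _ hJ)

/-- the map to the residue ring -/
noncomputable def e2hom {K : Type} [Field K] [NumberField K] {d : ℕ} {l : ℕ} (hl : 0 < l)
    (ω : Module.Basis (Fin d) ℤ (𝓞 K)) {J : Ideal (𝓞 K)} (hJ : ((l : 𝓞 K)) ^ 2 ∈ J) :
    (Fin d → ZMod (l ^ 2)) →+ (𝓞 K ⧸ J) :=
  AddMonoidHom.mk' (fun z => Ideal.Quotient.mk J (e2elt ω z)) fun z z' => by
    have hne : NeZero (l ^ 2) := ⟨(pow_pos hl 2).ne'⟩
    rw [← map_add, Ideal.Quotient.eq]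
    have h1 := e2_mem hl ω hJ (fun t => ((z t).val : ℤ) + ((z' t).val : ℤ))
    have h2 : (fun t => ((((z t).val : ℤ) + ((z' t).val : ℤ) : ℤ) : ZMod (l ^ 2))) = z + z' := by
      funext t
      push_cast
      rw [ZMod.natCast_zmod_val, ZMod.natCast_zmod_val]
      rfl
    rw [h2] at h1
    have h3 : ∑ t, (((z t).val : ℤ) + ((z' t).val : ℤ)) • ω t = e2elt ω z + e2elt ω z' := by
      unfold e2elt
      rw [← Finset.sum_add_distrib]
      exact Finset.sum_congr rfl fun t _ => add_smul _ _ _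
    rw [h3] at h1
    exact h1

theorem e2_surj {K : Type} [Field K] [NumberField K] {d : ℕ} {l : ℕ} (hl : 0 < l)
    (ω : Module.Basis (Fin d) ℤ (𝓞 K)) {J : Ideal (𝓞 K)} (hJ : ((l : 𝓞 K)) ^ 2 ∈ J) :
    Function.Surjective (e2hom hl ω hJ) := by
  intro y
  obtain ⟨x, rfl⟩ := Ideal.Quotient.mk_surjective y
  refine ⟨fun t => ((ω.repr x t : ℤ) : ZMod (l ^ 2)), ?_⟩
  show Ideal.Quotient.mk J (e2elt ω _) = _
  rw [Ideal.Quotient.eq]
  have h1 := e2_mem hl ω hJ (fun t => ω.repr x t)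
  rwa [ω.sum_repr x] at h1

theorem e2_count {K : Type} [Field K] [NumberField K] {d : ℕ} {l : ℕ} (hl : 0 < l)
    (ω : Module.Basis (Fin d) ℤ (𝓞 K)) {J : Ideal (𝓞 K)} (hJ : ((l : 𝓞 K)) ^ 2 ∈ J) :
    Nat.card {z : Fin d → ZMod (l ^ 2) // e2elt ω z ∈ J} * Ideal.absNorm J = (l ^ 2) ^ d := by
  have hne : NeZero (l ^ 2) := ⟨(pow_pos hl 2).ne'⟩
  have h1 := AddSubgroup.card_eq_card_quotient_mul_card_addSubgroup (e2hom hl ω hJ).ker
  have h2 : Nat.card ((Fin d → ZMod (l ^ 2)) ⧸ (e2hom hl ω hJ).ker) = Nat.card (𝓞 K ⧸ J) :=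
    Nat.card_congr (QuotientAddGroup.quotientKerEquivOfSurjective _ (e2_surj hl ω hJ)).toEquiv
  have h3 : Nat.card (e2hom hl ω hJ).ker = Nat.card {z : Fin d → ZMod (l ^ 2) // e2elt ω z ∈ J} := by
    refine Nat.card_congr (Equiv.subtypeEquivRight fun z => ?_)
    rw [AddMonoidHom.mem_ker]
    exact Ideal.Quotient.eq_zero_iff_mem
  have h4 : Nat.card (Fin d → ZMod (l ^ 2)) = (l ^ 2) ^ d := by
    rw [Nat.card_fun, Nat.card_zmod, Nat.card_fin]
  rw [h2, h3, h4] at h1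
  rw [Ideal.absNorm_apply, Submodule.cardQuot_apply, h1, mul_comm]

/-- the number of residue classes for which `v` divides exactly `a_i` -/
theorem e2 {K : Type} [Field K] [NumberField K] {d : ℕ} (ω : Module.Basis (Fin d) ℤ (𝓞 K))
    (v : HeightOneSpectrum (𝓞 K)) {l : ℕ} (hl : l.Prime) (hv : Ideal.absNorm v.asIdeal = l) {k : ℕ}
    (i : Fin k) :
    (2 : ℝ)⁻¹ ^ k / l * ((l : ℝ) ^ 2) ^ (k * d) ≤
      Nat.card {y : Fin k × Fin d → ZMod (l ^ 2) // (∑ t, ((y (i, t)).val : ℤ) • ω t) ∈ v.asIdeal ∧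
        (∑ t, ((y (i, t)).val : ℤ) • ω t) ∉ v.asIdeal ^ 2 ∧
        ∀ j, j ≠ i → (∑ t, ((y (j, t)).val : ℤ) • ω t) ∉ v.asIdeal} := by
  classical
  have hne : NeZero (l ^ 2) := ⟨(pow_pos hl.pos 2).ne'⟩
  have hlv : (l : 𝓞 K) ∈ v.asIdeal := by
    have := Ideal.absNorm_mem v.asIdeal
    rwa [hv] at this
  have hJ2 : ((l : 𝓞 K)) ^ 2 ∈ v.asIdeal ^ 2 := Ideal.pow_mem_pow hlv 2
  have hJ1 : ((l : 𝓞 K)) ^ 2 ∈ v.asIdeal := Ideal.pow_mem_of_mem _ hlv 2 (by norm_num)
  set Z := Fin d → ZMod (l ^ 2) with hZ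
  -- the conditions
  let P : Fin k → Z → Prop := fun j z =>
    if j = i then e2elt ω z ∈ v.asIdeal ∧ e2elt ω z ∉ v.asIdeal ^ 2 else e2elt ω z ∉ v.asIdeal
  have hcard : Nat.card {y : Fin k × Fin d → ZMod (l ^ 2) //
        (∑ t, ((y (i, t)).val : ℤ) • ω t) ∈ v.asIdeal ∧
        (∑ t, ((y (i, t)).val : ℤ) • ω t) ∉ v.asIdeal ^ 2 ∧
        ∀ j, j ≠ i → (∑ t, ((y (j, t)).val : ℤ) • ω t) ∉ v.asIdeal} =
      ∏ j, Nat.card {z : Z // P j z} := by
    rw [← Nat.card_pi]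
    refine Nat.card_congr ?_
    refine Equiv.trans ?_ (Equiv.subtypePiEquivPi (p := fun j z => P j z))
    refine Equiv.subtypeEquiv (Equiv.curry (Fin k) (Fin d) (ZMod (l ^ 2))) fun y => ?_
    constructor
    · rintro ⟨h1, h2, h3⟩ j
      by_cases hj : j = i
      · subst hj
        show if _ then _ else _
        rw [if_pos rfl]
        exact ⟨h1, h2⟩
      · show if _ then _ else _
        rw [if_neg hj]
        exact h3 j hj
    · intro h
      have hi : if i = i then _ else _ := h i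
      rw [if_pos rfl] at hi
      refine ⟨hi.1, hi.2, fun j hj => ?_⟩
      have hj' : if j = i then _ else _ := h j
      rw [if_neg hj] at hj'
      exact hj'
  rw [hcard]
  have hl0 : (0 : ℝ) < l := by exact_mod_cast hl.pos
  have hl2 : (2 : ℝ) ≤ l := by exact_mod_cast hl.two_le
  have hZc : (Nat.card Z : ℝ) = ((l : ℝ) ^ 2) ^ d := by
    rw [hZ, Nat.card_fun, Nat.card_zmod, Nat.card_fin]; push_cast; ring
  have hfinZ : Finite Z := inferInstance
  -- the two counts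
  have c1 : (Nat.card {z : Z // e2elt ω z ∈ v.asIdeal} : ℝ) = ((l : ℝ) ^ 2) ^ d / l := by
    have h := e2_count hl.pos ω hJ1
    rw [hv] at h
    rw [eq_div_iff hl0.ne']
    exact_mod_cast h
  have c2 : (Nat.card {z : Z // e2elt ω z ∈ v.asIdeal ^ 2} : ℝ) = ((l : ℝ) ^ 2) ^ d / l ^ 2 := by
    have h := e2_count hl.pos ω hJ2
    rw [map_pow, hv] at h
    rw [eq_div_iff (by positivity)]
    exact_mod_cast h
  have hcompl : ∀ p : Z → Prop, (Nat.card {z : Z // ¬ p z} : ℝ) =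
      Nat.card Z - Nat.card {z : Z // p z} := by
    intro p
    have := Nat.card_congr (Equiv.sumCompl p)
    rw [Nat.card_sum] at this
    rw [← this]; push_cast; ring
  have d1 : (Nat.card {z : Z // e2elt ω z ∈ v.asIdeal ∧ e2elt ω z ∉ v.asIdeal ^ 2} : ℝ) =
      ((l : ℝ) ^ 2) ^ d / l - ((l : ℝ) ^ 2) ^ d / l ^ 2 := by
    have hle : v.asIdeal ^ 2 ≤ v.asIdeal := Ideal.pow_le_self (by norm_num)
    have h5 : Nat.card {z : Z // e2elt ω z ∈ v.asIdeal} =
        Nat.card {z : Z // e2elt ω z ∈ v.asIdeal ^ 2} +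
          Nat.card {z : Z // e2elt ω z ∈ v.asIdeal ∧ e2elt ω z ∉ v.asIdeal ^ 2} := by
      simp only [Nat.card_eq_fintype_card, Fintype.card_subtype]
      rw [← Finset.card_union_of_disjoint]
      · congr 1
        ext z
        simp only [Finset.mem_filter, Finset.mem_univ, true_and, Finset.mem_union]
        constructor
        · intro h
          by_cases h' : e2elt ω z ∈ v.asIdeal ^ 2
          · exact Or.inl h'
          · exact Or.inr ⟨h, h'⟩
        · rintro (h | h)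
          · exact hle h
          · exact h.1
      · rw [Finset.disjoint_filter]
        intro z _ h1 h2
        exact h2.2 h1
    rw [← c1, ← c2, h5]; push_cast; ring
  have hA : (0 : ℝ) ≤ ((l : ℝ) ^ 2) ^ d := by positivity
  have b1 : ((l : ℝ) ^ 2) ^ d / l / 2 ≤
      (Nat.card {z : Z // e2elt ω z ∈ v.asIdeal ∧ e2elt ω z ∉ v.asIdeal ^ 2} : ℝ) := by
    rw [d1]
    have h6 : ((l : ℝ) ^ 2) ^ d / l ^ 2 ≤ ((l : ℝ) ^ 2) ^ d / l / 2 := by
      rw [div_div]
      exact div_le_div_of_nonneg_left hA (by positivity) (by nlinarith)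
    have h7 : ((l : ℝ) ^ 2) ^ d / l = ((l : ℝ) ^ 2) ^ d / l / 2 + ((l : ℝ) ^ 2) ^ d / l / 2 := by
      ring
    linarith
  have b2 : ((l : ℝ) ^ 2) ^ d / 2 ≤ (Nat.card {z : Z // e2elt ω z ∉ v.asIdeal} : ℝ) := by
    rw [hcompl, c1, hZc]
    have h6 : ((l : ℝ) ^ 2) ^ d / l ≤ ((l : ℝ) ^ 2) ^ d / 2 :=
      div_le_div_of_nonneg_left hA (by norm_num) hl2
    linarith
  push_cast
  calc (2 : ℝ)⁻¹ ^ k / l * ((l : ℝ) ^ 2) ^ (k * d)
      = ∏ j : Fin k, (if j = i then ((l : ℝ) ^ 2) ^ d / l / 2 else ((l : ℝ) ^ 2) ^ d / 2) := by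
        rw [← Finset.mul_prod_erase Finset.univ _ (Finset.mem_univ i), if_pos rfl]
        rw [Finset.prod_congr rfl (g := fun _ => ((l : ℝ) ^ 2) ^ d / 2)
          (fun j hj => if_neg (Finset.ne_of_mem_erase hj))]
        rw [Finset.prod_const, Finset.card_erase_of_mem (Finset.mem_univ i), Finset.card_univ,
          Fintype.card_fin]
        obtain ⟨m, rfl⟩ : ∃ m, k = m + 1 := ⟨k - 1, by have := i.isLt; omega⟩
        rw [Nat.add_sub_cancel, div_pow, mul_comm (m + 1) d, pow_mul, pow_succ (((l : ℝ) ^ 2) ^ d),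
          inv_pow, pow_succ (2 : ℝ)]
        field_simp
    _ ≤ ∏ j, (Nat.card {z : Z // P j z} : ℝ) := by
        refine Finset.prod_le_prod (fun j _ => ?_) fun j _ => ?_
        · split_ifs <;> positivity
        · by_cases hj : j = i
          · subst hj
            rw [if_pos rfl]
            have h8 : Nat.card {z : Z // P j z} =
                Nat.card {z : Z // e2elt ω z ∈ v.asIdeal ∧ e2elt ω z ∉ v.asIdeal ^ 2} :=
              Nat.card_congr (Equiv.subtypeEquivRight fun z => by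
                show (if _ then _ else _) ↔ _
                rw [if_pos rfl])
            rw [h8]; exact b1
          · rw [if_neg hj]
            have h8 : Nat.card {z : Z // P j z} = Nat.card {z : Z // e2elt ω z ∉ v.asIdeal} :=
              Nat.card_congr (Equiv.subtypeEquivRight fun z => by
                show (if _ then _ else _) ↔ _
                rw [if_neg hj])
            rw [h8]; exact b2

end Pool.Agent.AKG
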