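import Pool.Agent.Lib_helper24.AKG.Defs

set_option autoImplicit false

namespace Pool.Agent.AKG
open NumberField IsDedekindDomain

/-- the cyclotomic polynomial is irreducible -/
theorem e3_irr {F₀ F : Type} [Field F₀] [NumberField F₀] [Field F] [NumberField F] [Algebra F₀ F]
    {n : ℕ} (hn0 : 0 < n) (hF : IsCyclotomicExtension {n} F₀ F)
    (hn : Module.finrank F₀ F = n.totient) : Irreducible (Polynomial.cyclotomic n F₀) := by
  have : NeZero n := ⟨hn0.ne'⟩
  have hζ := IsCyclotomicExtension.zeta_spec n F₀ F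
  set ζ := IsCyclotomicExtension.zeta n F₀ F with hζdef
  have hint : IsIntegral F₀ ζ := IsIntegral.of_finite F₀ ζ
  have hdvd : minpoly F₀ ζ ∣ Polynomial.cyclotomic n F₀ := by
    apply minpoly.dvd
    rw [Polynomial.aeval_def, Polynomial.eval₂_eq_eval_map, Polynomial.map_cyclotomic]
    have hroot := (Polynomial.isRoot_cyclotomic_iff (R := F) (n := n) (μ := ζ)).2 hζ
    exact hroot
  have hadj : IntermediateField.adjoin F₀ {ζ} = ⊤ :=
    IntermediateField.adjoin_eq_top_of_algebra _ _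
      (IsCyclotomicExtension.adjoin_primitive_root_eq_top hζ)
  have hdeg : (minpoly F₀ ζ).natDegree = n.totient := by
    rw [← IntermediateField.adjoin.finrank hint, hadj, IntermediateField.finrank_top', hn]
  have heq : minpoly F₀ ζ = Polynomial.cyclotomic n F₀ := Eq.symm <|
    Polynomial.eq_of_monic_of_dvd_of_natDegree_le (minpoly.monic hint)
      (Polynomial.cyclotomic.monic n F₀) hdvd
      (by rw [hdeg, Polynomial.natDegree_cyclotomic])
  rw [← heq]
  exact minpoly.irreducible hint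

/-- the automorphism which inverts the roots of unity -/
theorem e3_alpha {F₀ F : Type} [Field F₀] [NumberField F₀] [Field F] [NumberField F]
    [Algebra F₀ F] {n : ℕ} (hn0 : 0 < n) (hF : IsCyclotomicExtension {n} F₀ F)
    (hn : Module.finrank F₀ F = n.totient) :
    ∃ (α : F ≃ₐ[F₀] F) (ζ : F), IsPrimitiveRoot ζ n ∧ α ζ = ζ⁻¹ := by
  have : NeZero n := ⟨hn0.ne'⟩
  have hζ := IsCyclotomicExtension.zeta_spec n F₀ F
  exact ⟨IsCyclotomicExtension.fromZetaAut hζ.inv (e3_irr hn0 hF hn),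
    IsCyclotomicExtension.zeta n F₀ F, hζ, IsCyclotomicExtension.fromZetaAut_spec _ _⟩

/-- roots of unity are distinct modulo places prime to their order -/
theorem e3_d2 {H : Type} [Field H] [NumberField H] (W : HeightOneSpectrum (𝓞 H)) {m : ℕ}
    (hW : (m : 𝓞 H) ∉ W.asIdeal) {z : 𝓞 H} (hz : z ^ m = 1) (h1 : z - 1 ∈ W.asIdeal) : z = 1 := by
  by_contra hne
  have hgs : (∑ i ∈ Finset.range m, z ^ i) * (z - 1) = 0 := by
    rw [geom_sum_mul, hz, sub_self]
  have h0 : ∑ i ∈ Finset.range m, z ^ i = 0 := by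
    rcases mul_eq_zero.1 hgs with h | h
    · exact h
    · exact absurd (sub_eq_zero.1 h) hne
  apply hW
  have h2 : (m : 𝓞 H) = - ∑ i ∈ Finset.range m, (z ^ i - 1) := by
    rw [Finset.sum_sub_distrib, h0]; simp
  rw [h2]
  refine neg_mem (Ideal.sum_mem _ fun i _ => ?_)
  obtain ⟨c, hc⟩ := sub_dvd_pow_sub_pow z 1 i
  rw [one_pow] at hc
  rw [hc]
  exact Ideal.mul_mem_right _ _ h1

/-- places of degree one in the class `-1` modulo `n` -/
theorem e3 {F₀ F : Type} [Field F₀] [NumberField F₀] [Field F] [NumberField F] [Algebra F₀ F]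
    {n : ℕ} (hn0 : 0 < n) (hF : IsCyclotomicExtension {n} F₀ F)
    (hn : Module.finrank F₀ F = n.totient) :
    ∃ Q : Set ℕ, (∀ l ∈ Q, l.Prime) ∧ ¬ Summable (Q.indicator fun l : ℕ => (l : ℝ)⁻¹) ∧
      ∀ l ∈ Q, n ∣ l + 1 ∧ ∃ v : HeightOneSpectrum (𝓞 F₀), Ideal.absNorm v.asIdeal = l := by
  obtain ⟨α, ζ, hζ, hαζ⟩ := e3_alpha hn0 hF hn
  obtain ⟨Q, hQ, hw⟩ := RT.nv_frob (α : F ≃+* F)
  refine ⟨{l | l ∈ Q ∧ l.Prime ∧ n < l}, fun l hl => hl.2.1, ?_, ?_⟩
  · intro hs
    apply hQ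
    have h1 : Summable (fun p : Nat.Primes =>
        ({l | l ∈ Q ∧ l.Prime ∧ n < l} : Set ℕ).indicator (fun l : ℕ => (l : ℝ)⁻¹) (p : ℕ)) :=
      hs.comp_injective (fun a b h => Subtype.ext h)
    have hfin : {p : Nat.Primes | (p : ℕ) ≤ n}.Finite :=
      (Set.finite_Iic n).preimage (fun a _ b _ hab => Subtype.ext hab)
    have h4 : Summable ({p : Nat.Primes | (p : ℕ) ≤ n}.indicator
        fun p : Nat.Primes => Q.indicator (fun q : ℕ => (q : ℝ)⁻¹) p) :=
      summable_of_hasFiniteSupport (hfin.subset (Set.support_indicator_subset))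
    refine (h1.add h4).congr fun p => ?_
    by_cases hB : n < (p : ℕ)
    · have h5 : p ∉ {p : Nat.Primes | (p : ℕ) ≤ n} := fun h => by
        have : (p : ℕ) ≤ n := h
        omega
      rw [Set.indicator_of_notMem h5, add_zero]
      by_cases hp : (p : ℕ) ∈ Q
      · rw [Set.indicator_of_mem (show (p : ℕ) ∈ {l | l ∈ Q ∧ l.Prime ∧ n < l} from
          ⟨hp, p.2, hB⟩), Set.indicator_of_mem hp]
      · rw [Set.indicator_of_notMem (fun h : (p : ℕ) ∈ {l | l ∈ Q ∧ l.Prime ∧ n < l} => hp h.1),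
          Set.indicator_of_notMem hp]
    · have h5 : p ∈ {p : Nat.Primes | (p : ℕ) ≤ n} := not_lt.1 hB
      rw [Set.indicator_of_mem h5,
        Set.indicator_of_notMem (fun h : (p : ℕ) ∈ {l | l ∈ Q ∧ l.Prime ∧ n < l} => hB h.2.2),
        zero_add]
  · rintro l ⟨hlQ, hl, hnl⟩
    obtain ⟨w, hlw, hfrob⟩ := hw l hlQ hl
    constructor
    · -- the class of l
      have hint : IsIntegral ℤ ζ := hζ.isIntegral hn0
      obtain ⟨z, hz⟩ : ∃ z : 𝓞 F, (z : F) = ζ := ⟨⟨ζ, hint⟩, rfl⟩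
      obtain ⟨u, hu⟩ : ∃ u : 𝓞 F, (u : F) = ζ⁻¹ := ⟨⟨ζ⁻¹, (hζ.inv).isIntegral hn0⟩, rfl⟩
      have h1 : u - z ^ l ∈ w.asIdeal := hfrob z u (by rw [hu, hz]; exact hαζ.symm)
      have hinj : Function.Injective (algebraMap (𝓞 F) F) := RingOfIntegers.coe_injective
      have huz : u * z = 1 := by
        apply hinj
        rw [map_mul, map_one]
        show (u : F) * (z : F) = 1
        rw [hu, hz]
        exact inv_mul_cancel₀ (hζ.ne_zero hn0.ne')
      have h2 : z ^ (l + 1) - 1 ∈ w.asIdeal := by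
        have h3 : z ^ (l + 1) - 1 = -((u - z ^ l) * z) := by
          rw [sub_mul, huz]; ring
        rw [h3]
        exact neg_mem (Ideal.mul_mem_right _ _ h1)
      have hzn : z ^ n = 1 := by
        apply hinj
        rw [map_pow, map_one]
        show (z : F) ^ n = 1
        rw [hz]; exact hζ.pow_eq_one
      have hnw : (n : 𝓞 F) ∉ w.asIdeal := fun h =>
        RSK.cb_coprime w.isPrime.ne_top hl hlw h hn0 hnl
      have h4 : z ^ (l + 1) = 1 := e3_d2 w hnw (by rw [← pow_mul, mul_comm, pow_mul, hzn, one_pow]) h2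
      apply hζ.dvd_of_pow_eq_one
      rw [← hz]
      have := congrArg (algebraMap (𝓞 F) F) h4
      rw [map_pow, map_one] at this
      exact this
    · refine ⟨w.under (𝓞 F₀), ?_⟩
      have hmem : ∀ z : 𝓞 F₀, z ∈ (w.under (𝓞 F₀)).asIdeal ↔
          algebraMap (𝓞 F₀) (𝓞 F) z ∈ w.asIdeal := fun z => Iff.rfl
      refine RSK.cb_card (w.under (𝓞 F₀)) hl ?_ fun f => ?_
      · rw [hmem, map_natCast]; exact hlw
      · rw [hmem, map_sub, map_pow]
        have h1 : algebraMap (𝓞 F₀) (𝓞 F) f - (algebraMap (𝓞 F₀) (𝓞 F) f) ^ l ∈ w.asIdeal := by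
          refine hfrob _ _ ?_
          have h2 : ((algebraMap (𝓞 F₀) (𝓞 F) f : 𝓞 F) : F) = algebraMap F₀ F (f : F₀) := rfl
          rw [h2]
          exact (α.commutes _).symm
        rw [← neg_sub]
        exact neg_mem h1

end Pool.Agent.AKG
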