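import Pool.Agent.Lib_helper24.AKG.P_E1
import Pool.Agent.Lib_helper24.AKG.P_E2
import Pool.Agent.Lib_helper24.AKG.P_E3
namespace Pool.Agent.AKG
open NumberField IsDedekindDomain

/-- the coordinates modulo `l ^ 2` determine an element modulo `v ^ 2`, if `N v = l` -/
theorem e4_diff {K : Type} [Field K] [NumberField K] {d : ℕ} (ω : Module.Basis (Fin d) ℤ (𝓞 K))
    (v : HeightOneSpectrum (𝓞 K)) {l : ℕ} (hl : l.Prime) (hv : Ideal.absNorm v.asIdeal = l)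
    (b : 𝓞 K) :
    (∑ t, (((((ω.repr b) t : ℤ) : ZMod (l ^ 2)).val : ℕ) : ℤ) • ω t) - b ∈ v.asIdeal ^ 2 := by
  have : NeZero (l ^ 2) := ⟨pow_ne_zero 2 hl.ne_zero⟩
  have hb : b = ∑ t, (ω.repr b) t • ω t := (ω.sum_repr b).symm
  have hlv : ((l : ℕ) : 𝓞 K) ∈ v.asIdeal := by
    have := Ideal.absNorm_mem v.asIdeal
    rwa [hv] at this
  have hl2 : ((l : ℕ) : 𝓞 K) ^ 2 ∈ v.asIdeal ^ 2 := Ideal.pow_mem_pow hlv 2
  have e : (∑ t, (((((ω.repr b) t : ℤ) : ZMod (l ^ 2)).val : ℕ) : ℤ) • ω t) - b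
      = ∑ t, ((((((ω.repr b) t : ℤ) : ZMod (l ^ 2)).val : ℕ) : ℤ) - (ω.repr b) t) • ω t := by
    conv_lhs => rw [hb]
    rw [Finset.sum_congr rfl fun t _ => sub_smul _ _ (ω t), Finset.sum_sub_distrib, ← hb]
  rw [e]
  refine Ideal.sum_mem _ fun t _ => ?_
  have hdvd : ((l ^ 2 : ℕ) : ℤ) ∣
      (((((ω.repr b) t : ℤ) : ZMod (l ^ 2)).val : ℕ) : ℤ) - (ω.repr b) t := by
    rw [← ZMod.intCast_zmod_eq_zero_iff_dvd]
    push_cast
    rw [ZMod.natCast_zmod_val, sub_self]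
  obtain ⟨c, hc⟩ := hdvd
  rw [hc, zsmul_eq_mul]
  push_cast
  rw [mul_assoc]
  exact Ideal.mul_mem_right _ _ hl2

theorem e4 {F₀ F : Type} [Field F₀] [NumberField F₀] [Field F] [NumberField F] [Algebra F₀ F]
    {k : ℕ} (q : Fin k → ℕ) (hq : ∀ i, 0 < q i)
    (hF : IsCyclotomicExtension {Finset.univ.lcm q} F₀ F)
    (hn : Module.finrank F₀ F = (Finset.univ.lcm q).totient) {d : ℕ}
    (ω : Module.Basis (Fin d) ℤ (𝓞 F₀)) {ε : ℝ} (hε : 0 < ε) :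
    ∃ X₀ : ℕ, ∀ X : ℕ, X₀ ≤ X →
      (Nat.card {a : Fin k → 𝓞 F₀ // (∀ i j, |ω.repr (a i) j| ≤ X) ∧ ¬ Many q a} : ℝ) ≤
        ε * (2 * X + 1) ^ (k * d) := by
  classical
  have hn0 : 0 < Finset.univ.lcm q := by
    rw [Nat.pos_iff_ne_zero, Ne, Finset.lcm_eq_zero_iff]
    rintro ⟨i, _, hi⟩
    exact absurd hi (hq i).ne'
  obtain ⟨Q, hQ, hQs, hQv⟩ := e3 hn0 hF hn
  have hQv2 : ∀ l : ℕ, l ∈ Q → ∃ v : HeightOneSpectrum (𝓞 F₀), Ideal.absNorm v.asIdeal = l :=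
    fun l hl => (hQv l hl).2
  choose V hV using hQv2
  let E : Fin k → (l : ℕ) → Set (Fin k × Fin d → ZMod (l ^ 2)) := fun i l =>
    {y | ∀ hl : l ∈ Q, (∑ t, ((y (i, t)).val : ℤ) • ω t) ∈ (V l hl).asIdeal ∧
        (∑ t, ((y (i, t)).val : ℤ) • ω t) ∉ (V l hl).asIdeal ^ 2 ∧
        ∀ j, j ≠ i → (∑ t, ((y (j, t)).val : ℤ) • ω t) ∉ (V l hl).asIdeal}
  let B : ℕ → ℕ := fun p => p ^ ((Finset.univ.lcm q).factorization p - 1) *
    (((∏ j, q j).factorization p - (Finset.univ.lcm q).factorization p) * (p - 1) + 1)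
  let N : ℕ := ∑ i, ∑ p ∈ (q i).primeFactors, B p
  have hN : ∀ i p, p.Prime → p ∣ q i → B p ≤ N := by
    intro i p hp hpi
    have h1 : B p ≤ ∑ p ∈ (q i).primeFactors, B p :=
      Finset.single_le_sum (f := B) (fun _ _ => Nat.zero_le _)
        (Nat.mem_primeFactors.2 ⟨hp, hpi, (hq i).ne'⟩)
    exact h1.trans (Finset.single_le_sum (f := fun i => ∑ p ∈ (q i).primeFactors, B p)
      (fun _ _ => Nat.zero_le _) (Finset.mem_univ i))
  have hcI : Fintype.card (Fin k × Fin d) = k * d := by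
    rw [Fintype.card_prod, Fintype.card_fin, Fintype.card_fin]
  have hE : ∀ i, ∀ l ∈ Q, ((2 : ℝ)⁻¹ ^ k) / l * ((l : ℝ) ^ 2) ^ Fintype.card (Fin k × Fin d) ≤
      Nat.card (E i l) := by
    intro i l hl
    rw [hcI]
    refine (e2 ω (V l hl) (hQ l hl) (hV l hl) i).trans (le_of_eq ?_)
    congr 1
    refine Nat.card_congr (Equiv.subtypeEquivRight fun y => ?_)
    exact ⟨fun h _ => h, fun h => h hl⟩
  obtain ⟨X₀, hX₀⟩ := e1 (I := Fin k × Fin d) hQ hQs E (c := (2 : ℝ)⁻¹ ^ k) (by positivity) hE N hε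
  refine ⟨X₀, fun X hX => ?_⟩
  have h := hX₀ X hX
  rw [hcI] at h
  refine le_trans ?_ h
  have hfin : Finite {a : Fin k × Fin d → ℤ // (∀ j, |a j| ≤ X) ∧ ∃ i, ∀ s : Finset ℕ,
        (∀ l ∈ s, l ∈ Q ∧ (fun j => ((a j : ℤ) : ZMod (l ^ 2))) ∈ E i l) → s.card ≤ N} := by
    have hf : Set.Finite {a : Fin k × Fin d → ℤ | ∀ j, |a j| ≤ (X : ℤ)} := by
      refine (Set.Finite.pi' (t := fun _ => Set.Icc (-(X : ℤ)) X)
        (fun _ => Set.finite_Icc _ _)).subset ?_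
      intro a ha j
      exact Set.mem_Icc.2 (abs_le.1 (ha j))
    exact (hf.subset (fun a (ha : (∀ j, |a j| ≤ X) ∧ ∃ i, ∀ s : Finset ℕ,
        (∀ l ∈ s, l ∈ Q ∧ (fun j => ((a j : ℤ) : ZMod (l ^ 2))) ∈ E i l) → s.card ≤ N) =>
          ha.1)).to_subtype
  have key : ∀ a : Fin k → 𝓞 F₀, (∀ i j, |ω.repr (a i) j| ≤ X) ∧ ¬ Many q a →
      (∀ j : Fin k × Fin d, |ω.repr (a j.1) j.2| ≤ X) ∧ ∃ i, ∀ s : Finset ℕ,
        (∀ l ∈ s, l ∈ Q ∧ (fun j : Fin k × Fin d =>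
          ((ω.repr (a j.1) j.2 : ℤ) : ZMod (l ^ 2))) ∈ E i l) → s.card ≤ N := by
    rintro a ⟨ha, hm⟩
    refine ⟨fun j => ha j.1 j.2, ?_⟩
    unfold Many at hm
    push Not at hm
    obtain ⟨i, p, e, f, hp, hpi, he, hf, hs⟩ := hm
    refine ⟨i, fun s hsE => ?_⟩
    by_contra hcon
    have hcon' : N < s.card := not_le.1 hcon
    let s' : Finset (HeightOneSpectrum (𝓞 F₀)) :=
      s.attach.image (fun l => V l.1 (hsE l.1 l.2).1)
    have hinj : Function.Injective (fun l : {x // x ∈ s} => V l.1 (hsE l.1 l.2).1) := by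
      intro l l' hll
      have h1 := hV l.1 (hsE l.1 l.2).1
      have h2 := hV l'.1 (hsE l'.1 l'.2).1
      have hll' : V l.1 (hsE l.1 l.2).1 = V l'.1 (hsE l'.1 l'.2).1 := hll
      rw [hll', h2] at h1
      exact Subtype.ext h1.symm
    have hcard : s'.card = s.card := by
      rw [Finset.card_image_of_injective _ hinj, Finset.card_attach]
    have hB : p ^ (f - 1) * ((e - f) * (p - 1) + 1) < s'.card := by
      rw [hcard]
      refine lt_of_le_of_lt ?_ hcon'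
      have := hN i p hp hpi
      rw [← he, ← hf]
      exact this
    obtain ⟨v, hvs, hv⟩ := hs s' hB
    obtain ⟨⟨l, hls⟩, _, rfl⟩ := Finset.mem_image.1 hvs
    obtain ⟨hlQ, hlE⟩ := hsE l hls
    obtain ⟨g1, g2, g3⟩ := hlE hlQ
    have hlp := hQ l hlQ
    have hVl := hV l hlQ
    have d2 : ∀ j : Fin k, (∑ t, ((((ω.repr (a j) t : ℤ) : ZMod (l ^ 2)).val : ℕ) : ℤ) • ω t)
        - a j ∈ (V l hlQ).asIdeal ^ 2 := fun j => e4_diff ω (V l hlQ) hlp hVl (a j)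
    have d1 : ∀ j : Fin k, (∑ t, ((((ω.repr (a j) t : ℤ) : ZMod (l ^ 2)).val : ℕ) : ℤ) • ω t)
        - a j ∈ (V l hlQ).asIdeal := fun j => Ideal.pow_le_self two_ne_zero (d2 j)
    have k1 : a i ∈ (V l hlQ).asIdeal := by
      have := Ideal.sub_mem _ g1 (d1 i)
      rwa [sub_sub_cancel] at this
    have k2 : a i ∉ (V l hlQ).asIdeal ^ 2 := by
      intro hh
      apply g2
      have := Ideal.add_mem _ (d2 i) hh
      rwa [sub_add_cancel] at this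
    have k3 : ∀ j, j ≠ i → a j ∉ (V l hlQ).asIdeal := by
      intro j hj hh
      apply g3 j hj
      have := Ideal.add_mem _ (d1 j) hh
      rwa [sub_add_cancel] at this
    obtain ⟨j, hj, hj'⟩ := hv (Or.inl (by rw [hVl]; exact (hQv l hlQ).1)) k1 k2
    exact k3 j hj hj'
  have hle : Nat.card {a : Fin k → 𝓞 F₀ // (∀ i j, |ω.repr (a i) j| ≤ X) ∧ ¬ Many q a} ≤
      Nat.card {a : Fin k × Fin d → ℤ // (∀ j, |a j| ≤ X) ∧ ∃ i, ∀ s : Finset ℕ,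
        (∀ l ∈ s, l ∈ Q ∧ (fun j => ((a j : ℤ) : ZMod (l ^ 2))) ∈ E i l) → s.card ≤ N} := by
    refine Nat.card_le_card_of_injective
      (fun a => ⟨fun j => ω.repr (a.1 j.1) j.2, key a.1 a.2⟩) ?_
    intro a b hab
    have hab' := congrArg Subtype.val hab
    apply Subtype.ext
    funext i
    apply ω.repr.injective
    ext t
    exact congrFun hab' (i, t)
  exact_mod_cast hle
end Pool.Agent.AKG
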