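import Pool.Agent.Lib_helper24.AKG.Defs
import Pool.Agent.Lib_helper17.KR.Deg
namespace Pool.Agent.AKG
open NumberField IsDedekindDomain Pool.Agent

theorem K2_kap_inj {F H : Type} [Field F] [Field H] [Algebra F H] {k : ℕ} {q : Fin k → ℕ}
    {b : Fin k → H} (hgen : IntermediateField.adjoin F (Set.range b) = ⊤)
    {κ : (H ≃ₐ[F] H) →* ((i : Fin k) → rootsOfUnity (q i) F)}
    (hκ : ∀ (σ : H ≃ₐ[F] H) (i : Fin k), σ (b i) = algebraMap F H ((κ σ i : Fˣ) : F) * b i) :
    Function.Injective κ := by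
  rw [injective_iff_map_eq_one]
  intro σ hσ
  have h1 : ∀ i, σ (b i) = b i := by
    intro i
    rw [hκ, hσ]
    simp
  have h2 : IntermediateField.adjoin F (Set.range b) ≤
      IntermediateField.fixedField (Subgroup.zpowers σ) := by
    rw [IntermediateField.adjoin_le_iff]
    rintro _ ⟨i, rfl⟩
    rw [SetLike.mem_coe, IntermediateField.mem_fixedField_iff]
    intro τ hτ
    obtain ⟨n, rfl⟩ := Subgroup.mem_zpowers_iff.1 hτ
    have h3 : σ ∈ MulAction.stabilizer (H ≃ₐ[F] H) (b i) := by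
      rw [MulAction.mem_stabilizer_iff]
      exact h1 i
    exact (MulAction.stabilizer (H ≃ₐ[F] H) (b i)).zpow_mem h3 n
  ext x
  have h3 : x ∈ IntermediateField.fixedField (Subgroup.zpowers σ) :=
    h2 (hgen ▸ IntermediateField.mem_top)
  rw [IntermediateField.mem_fixedField_iff] at h3
  exact h3 σ (Subgroup.mem_zpowers σ)

theorem K2_root {F : Type} [Field F] {k : ℕ} (q : Fin k → ℕ) (hq : ∀ i, 0 < q i) {ζ : F}
    (hζ : IsPrimitiveRoot ζ (Finset.univ.lcm q)) (i : Fin k) :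
    IsPrimitiveRoot (ζ ^ (Finset.univ.lcm q / q i)) (q i) := by
  have hn : 0 < Finset.univ.lcm q := Nat.pos_of_ne_zero (by
    rw [Ne, Finset.lcm_eq_zero_iff]
    rintro ⟨j, -, hj⟩
    exact (hq j).ne' hj)
  exact hζ.pow hn (Nat.div_mul_cancel (Finset.dvd_lcm (Finset.mem_univ i))).symm

theorem K2_exists_kap {F H : Type} [Field F] [Field H] [Algebra F H] {k : ℕ} (q : Fin k → ℕ)
    (hq : ∀ i, 0 < q i) {a : Fin k → F} (ha : ∀ i, a i ≠ 0) {ζ : F}
    (hζ : IsPrimitiveRoot ζ (Finset.univ.lcm q)) {b : Fin k → H}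
    (hb : ∀ i, b i ^ q i = algebraMap F H (a i)) :
    ∃ κ : (H ≃ₐ[F] H) →* ((i : Fin k) → rootsOfUnity (q i) F),
      ∀ (σ : H ≃ₐ[F] H) (i : Fin k), σ (b i) = algebraMap F H ((κ σ i : Fˣ) : F) * b i := by
  have key : ∀ i, ∃ κ : (H ≃ₐ[F] H) →* (Fin 1 → rootsOfUnity (q i) F),
      ∀ (σ : H ≃ₐ[F] H) (j : Fin 1), σ (b i) = algebraMap F H ((κ σ j : Fˣ) : F) * b i := by
    intro i
    exact KR.exists_kap (k := 1) (hq i) (a := fun _ => a i) (fun _ => ha i) (K2_root q hq hζ i)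
      (b := fun _ => b i) (fun _ => hb i)
  choose κ hκ using key
  refine ⟨{ toFun := fun σ i => κ i σ 0, map_one' := ?_, map_mul' := ?_ }, ?_⟩
  · funext i
    rw [map_one]
    rfl
  · intro σ τ
    funext i
    rw [map_mul]
    rfl
  · intro σ i
    exact hκ i σ 0

theorem K2_deg_ge {F H : Type} [Field F] [NumberField F] [Field H] [NumberField H] [Algebra F H]
    [IsGalois F H] {k : ℕ} (q : Fin k → ℕ) (hq : ∀ i, 0 < q i) {a : Fin k → F}
    (ha : ∀ i, a i ≠ 0) {b : Fin k → H} (hb : ∀ i, b i ^ q i = algebraMap F H (a i))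
    {κ : (H ≃ₐ[F] H) →* ((i : Fin k) → rootsOfUnity (q i) F)}
    (hκ : ∀ (σ : H ≃ₐ[F] H) (i : Fin k), σ (b i) = algebraMap F H ((κ σ i : Fˣ) : F) * b i)
    (hv : ∀ i, ∃ v : HeightOneSpectrum (𝓞 F), RSK.ordv v (a i) = 1 ∧
      ∀ j, j ≠ i → RSK.ordv v (a j) = 0) :
    ∏ i, q i ≤ Module.finrank F H := by
  classical
  set n := Finset.univ.lcm q with hn
  have hn0 : n ≠ 0 := by
    rw [hn, Ne, Finset.lcm_eq_zero_iff]
    rintro ⟨j, -, hj⟩
    exact (hq j).ne' hj
  have hdvd : ∀ i, q i ∣ n := fun i => Finset.dvd_lcm (Finset.mem_univ i)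
  have hb0 : ∀ i, b i ≠ 0 := by
    intro i h
    have := hb i
    rw [h, zero_pow (hq i).ne'] at this
    exact ha i ((map_eq_zero _).1 this.symm)
  let φ : ((i : Fin k) → Fin (q i)) → ((H ≃ₐ[F] H) →* F) := fun c =>
    { toFun := fun σ => ∏ i, ((κ σ i : Fˣ) : F) ^ (c i : ℕ)
      map_one' := by simp
      map_mul' := fun σ τ => by
        rw [map_mul, ← Finset.prod_mul_distrib]
        refine Finset.prod_congr rfl fun i _ => ?_
        rw [Pi.mul_apply, ← mul_pow]
        rfl }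
  have hφ : Function.Injective φ := by
    intro c c' hcc
    have h1 : ∀ σ : H ≃ₐ[F] H, ∀ c : (i : Fin k) → Fin (q i),
        σ (∏ i, b i ^ (c i : ℕ)) = algebraMap F H (φ c σ) * ∏ i, b i ^ (c i : ℕ) := by
      intro σ c
      show σ (∏ i, b i ^ (c i : ℕ)) = algebraMap F H (∏ i, ((κ σ i : Fˣ) : F) ^ (c i : ℕ)) * _
      rw [map_prod, map_prod, ← Finset.prod_mul_distrib]
      refine Finset.prod_congr rfl fun i _ => ?_
      rw [map_pow, hκ, mul_pow, map_pow]
    set X := ∏ i, b i ^ (c i : ℕ) with hX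
    set Y := ∏ i, b i ^ (c' i : ℕ) with hY
    have hX0 : X ≠ 0 := Finset.prod_ne_zero_iff.2 fun i _ => pow_ne_zero _ (hb0 i)
    have hY0 : Y ≠ 0 := Finset.prod_ne_zero_iff.2 fun i _ => pow_ne_zero _ (hb0 i)
    have hfix : ∀ σ : H ≃ₐ[F] H, σ (X / Y) = X / Y := by
      intro σ
      rw [map_div₀, hX, hY, h1 σ c, h1 σ c', ← hX, ← hY, hcc]
      have hne : algebraMap F H (φ c' σ) ≠ 0 := by
        rw [map_ne_zero]
        show (∏ i, ((κ σ i : Fˣ) : F) ^ (c' i : ℕ)) ≠ 0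
        exact Finset.prod_ne_zero_iff.2 fun i _ => pow_ne_zero _ (Units.ne_zero _)
      rw [mul_div_mul_left _ _ hne]
    obtain ⟨t, ht⟩ : ∃ t : F, algebraMap F H t = X / Y := by
      have := (IsGalois.mem_bot_iff_fixed (F := F) (X / Y)).2 hfix
      exact IntermediateField.mem_bot.1 this
    have ht0 : t ≠ 0 := by
      rintro rfl
      rw [map_zero] at ht
      exact div_ne_zero hX0 hY0 ht.symm
    have h2 : ∏ i, a i ^ (n / q i * (c i : ℕ)) = t ^ n * ∏ i, a i ^ (n / q i * (c' i : ℕ)) := by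
      apply (algebraMap F H).injective
      have hXq : ∀ c : (i : Fin k) → Fin (q i),
          algebraMap F H (∏ i, a i ^ (n / q i * (c i : ℕ))) = (∏ i, b i ^ (c i : ℕ)) ^ n := by
        intro c
        rw [map_prod, ← Finset.prod_pow]
        refine Finset.prod_congr rfl fun i _ => ?_
        rw [map_pow, ← hb, ← pow_mul, ← pow_mul, ← mul_assoc, Nat.mul_div_cancel' (hdvd i),
          mul_comm]
      rw [map_mul, map_pow, hXq, hXq, ht, ← hX, ← hY, div_pow,
        div_mul_cancel₀ _ (pow_ne_zero _ hY0)]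
    funext i
    obtain ⟨v, hv1, hv2⟩ := hv i
    have h3 := congrArg (RSK.ordv v) h2
    have hsum : ∀ c : (i : Fin k) → Fin (q i),
        RSK.ordv v (∏ i, a i ^ (n / q i * (c i : ℕ))) = ((n / q i * (c i : ℕ) : ℕ) : ℤ) := by
      intro c
      rw [KR.ordv_prod _ v _ fun j _ => pow_ne_zero _ (ha j)]
      rw [Finset.sum_eq_single i]
      · rw [KR.ordv_pow v (ha i), hv1, mul_one]
      · intro j _ hj
        rw [KR.ordv_pow v (ha j), hv2 j hj, mul_zero]
      · intro h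
        exact absurd (Finset.mem_univ i) h
    have hmul := RSK.ordv_mul v (Units.mk0 _ (pow_ne_zero n ht0))
      (Units.mk0 (∏ i, a i ^ (n / q i * (c' i : ℕ)))
        (Finset.prod_ne_zero_iff.2 fun j _ => pow_ne_zero _ (ha j)))
    rw [Units.val_mul, Units.val_mk0, Units.val_mk0] at hmul
    rw [hmul, hsum, hsum, KR.ordv_pow v ht0] at h3
    have hnq : (n : ℤ) = ((n / q i : ℕ) : ℤ) * (q i : ℤ) := by
      have := (Nat.div_mul_cancel (hdvd i)).symm
      exact_mod_cast this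
    have hpos : ((n / q i : ℕ) : ℤ) ≠ 0 := by
      intro h0
      rw [h0, zero_mul] at hnq
      exact hn0 (by exact_mod_cast hnq)
    have h5 : ((c i : ℕ) : ℤ) = q i * RSK.ordv v t + (c' i : ℕ) := by
      apply mul_left_cancel₀ hpos
      rw [hnq] at h3
      push_cast at h3 ⊢
      linear_combination h3
    have h4 : (c i : ℕ) ≡ (c' i : ℕ) [MOD q i] := by
      rw [← Int.natCast_modEq_iff, Int.modEq_iff_dvd]
      exact ⟨-RSK.ordv v t, by rw [h5]; ring⟩
    exact Fin.ext (Nat.ModEq.eq_of_lt_of_lt h4 (c i).2 (c' i).2)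
  have hli := (linearIndependent_monoidHom (H ≃ₐ[F] H) F).comp φ hφ
  have h5 := hli.fintype_card_le_finrank
  rw [Module.finrank_fintype_fun_eq_card, ← Nat.card_eq_fintype_card (α := (H ≃ₐ[F] H)),
    IsGalois.card_aut_eq_finrank F H, Fintype.card_pi] at h5
  simpa using h5

theorem k2 {F H : Type} [Field F] [NumberField F] [Field H] [NumberField H] [Algebra F H]
    [IsGalois F H] {k : ℕ} (q : Fin k → ℕ) (hq : ∀ i, 0 < q i) (a : Fin k → F) {ζ : F}
    (hζ : IsPrimitiveRoot ζ (Finset.univ.lcm q)) {b : Fin k → H}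
    (hb : ∀ i, b i ^ q i = algebraMap F H (a i))
    (hgen : IntermediateField.adjoin F (Set.range b) = ⊤)
    (hv : ∀ i, ∃ v : HeightOneSpectrum (𝓞 F), RSK.ordv v (a i) = 1 ∧
      ∀ j, j ≠ i → RSK.ordv v (a j) = 0) :
    Module.finrank F H = ∏ i, q i ∧
      Nonempty ((H ≃ₐ[F] H) ≃* ((i : Fin k) → Multiplicative (ZMod (q i)))) := by
  classical
  have ha : ∀ i, a i ≠ 0 := by
    intro i h0
    obtain ⟨v, hv1, -⟩ := hv i
    rw [h0] at hv1
    simp [RSK.ordv] at hv1
  obtain ⟨κ, hκ⟩ := K2_exists_kap q hq ha hζ hb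
  have hinj := K2_kap_inj hgen hκ
  have hge := K2_deg_ge q hq ha hb hκ hv
  have hNZ : ∀ i, NeZero (q i) := fun i => ⟨(hq i).ne'⟩
  have hcard : Nat.card ((i : Fin k) → rootsOfUnity (q i) F) = ∏ i, q i := by
    rw [Nat.card_pi]
    refine Finset.prod_congr rfl fun i _ => ?_
    exact (K2_root q hq hζ i).card_rootsOfUnity
  have hle := Nat.card_le_card_of_injective κ hinj
  rw [hcard, IsGalois.card_aut_eq_finrank F H] at hle
  have hfin : Module.finrank F H = ∏ i, q i := le_antisymm hle hge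
  refine ⟨hfin, ?_⟩
  have hbij : Function.Bijective κ := by
    rw [Nat.bijective_iff_injective_and_card]
    exact ⟨hinj, by rw [hcard, IsGalois.card_aut_eq_finrank F H, hfin]⟩
  have e1 : ∀ i, rootsOfUnity (q i) F ≃* Multiplicative (ZMod (q i)) := by
    intro i
    refine mulEquivOfCyclicCardEq ?_
    have h1 : Nat.card (rootsOfUnity (q i) F) = q i := (K2_root q hq hζ i).card_rootsOfUnity
    rw [h1]
    show q i = Nat.card (ZMod (q i))
    rw [Nat.card_zmod]
  exact ⟨(MulEquiv.ofBijective κ hbij).trans (MulEquiv.piCongrRight e1)⟩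

end Pool.Agent.AKG
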