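import Pool.Agent.Lib_helper15.RB.DefsK

namespace Pool.Agent.AKG

open NumberField IsDedekindDomain

theorem K3_finrank_adjoin_le {K L : Type} [Field K] [Field L] [Algebra K L]
    [FiniteDimensional K L] {k : ℕ} (q : Fin k → ℕ) (hq : ∀ i, 0 < q i) (b : Fin k → L)
    (hb : ∀ i, ∃ a : K, b i ^ q i = algebraMap K L a) :
    Module.finrank K (IntermediateField.adjoin K (Set.range b)) ≤ ∏ i, q i := by
  classical
  have key : ∀ s : Finset (Fin k),
      Module.finrank K (IntermediateField.adjoin K (b '' (s : Set (Fin k)))) ≤ ∏ i ∈ s, q i := by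
    intro s
    induction s using Finset.induction_on with
    | empty =>
      rw [Finset.coe_empty, Set.image_empty, IntermediateField.adjoin_empty,
        IntermediateField.finrank_bot, Finset.prod_empty]
    | insert i s hi ih =>
      have h1 : IntermediateField.adjoin K (b '' ((insert i s : Finset (Fin k)) : Set (Fin k))) =
          IntermediateField.adjoin K {b i} ⊔ IntermediateField.adjoin K (b '' (s : Set (Fin k))) := by
        rw [Finset.coe_insert, Set.image_insert_eq, Set.insert_eq, IntermediateField.adjoin_union]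
      rw [h1, Finset.prod_insert hi]
      refine (IntermediateField.finrank_sup_le _ _).trans (Nat.mul_le_mul ?_ ih)
      obtain ⟨a, ha⟩ := hb i
      rw [IntermediateField.adjoin.finrank (IsIntegral.of_finite K (b i))]
      have h2 : minpoly K (b i) ∣ (Polynomial.X ^ q i - Polynomial.C a) := by
        apply minpoly.dvd
        simp [ha]
      have h3 := Polynomial.natDegree_le_of_dvd h2 (Polynomial.X_pow_sub_C_ne_zero (hq i) a)
      rwa [Polynomial.natDegree_X_pow_sub_C] at h3
  have h := key Finset.univ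
  rwa [Finset.coe_univ, Set.image_univ] at h

theorem K3_finrank_le_adjoin {F₀ F H : Type} [Field F₀] [NumberField F₀] [Field F] [NumberField F]
    [Field H] [NumberField H] [Algebra F₀ F] [Algebra F₀ H] [Algebra F H] [IsScalarTower F₀ F H]
    (b : Set H) (hgen : IntermediateField.adjoin F b = ⊤) :
    Module.finrank F H ≤ Module.finrank F₀ (IntermediateField.adjoin F₀ b) := by
  let F' : IntermediateField F₀ H := (IsScalarTower.toAlgHom F₀ F H).fieldRange
  have h1 : F' ⊔ IntermediateField.adjoin F₀ b = ⊤ := by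
    rw [eq_top_iff]
    have h2 : ∀ x ∈ IntermediateField.adjoin F b, x ∈ F' ⊔ IntermediateField.adjoin F₀ b := by
      intro x hx
      induction hx using IntermediateField.adjoin_induction with
      | mem x hx =>
        exact (le_sup_right : _ ≤ F' ⊔ IntermediateField.adjoin F₀ b)
          (IntermediateField.subset_adjoin F₀ b hx)
      | algebraMap x =>
        exact (le_sup_left : F' ≤ F' ⊔ IntermediateField.adjoin F₀ b) ⟨x, rfl⟩
      | add x y _ _ hx hy => exact add_mem hx hy
      | inv x _ hx => exact inv_mem hx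
      | mul x y _ _ hx hy => exact mul_mem hx hy
    intro x _
    exact h2 x (hgen ▸ IntermediateField.mem_top)
  have h2 := IntermediateField.finrank_sup_le F' (IntermediateField.adjoin F₀ b)
  rw [h1, IntermediateField.finrank_top'] at h2
  have h3 : Module.finrank F₀ F' = Module.finrank F₀ F := by
    have e : F ≃ₐ[F₀] F' := AlgEquiv.ofInjectiveField (IsScalarTower.toAlgHom F₀ F H)
    exact e.toLinearEquiv.finrank_eq.symm
  rw [h3, ← Module.finrank_mul_finrank F₀ F H] at h2
  exact Nat.le_of_mul_le_mul_left h2 Module.finrank_pos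

theorem k3 {F₀ F H : Type} [Field F₀] [NumberField F₀] [Field F] [NumberField F] [Field H]
    [NumberField H] [Algebra F₀ F] [Algebra F₀ H] [Algebra F H] [IsScalarTower F₀ F H]
    {k : ℕ} (q : Fin k → ℕ) (hq : ∀ i, 0 < q i)
    (hF : IsCyclotomicExtension {Finset.univ.lcm q} F₀ F)
    (hn : Module.finrank F₀ F = (Finset.univ.lcm q).totient) {a : Fin k → F₀} {b : Fin k → H}
    (hb : ∀ i, b i ^ q i = algebraMap F₀ H (a i))
    (hgen : IntermediateField.adjoin F (Set.range b) = ⊤)
    (hdeg : Module.finrank F H = ∏ i, q i) : RB.KumN F₀ F H := by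
  classical
  have hn0 : Finset.univ.lcm q ≠ 0 := by
    intro h0
    rw [Finset.lcm_eq_zero_iff] at h0
    obtain ⟨i, -, hi⟩ := h0
    exact (hq i).ne' hi
  have : NeZero (Finset.univ.lcm q) := ⟨hn0⟩
  have hζ := IsCyclotomicExtension.zeta_spec (Finset.univ.lcm q) F₀ F
  refine ⟨Finset.univ.lcm q, IsCyclotomicExtension.zeta (Finset.univ.lcm q) F₀ F, Set.range b,
    Nat.pos_of_ne_zero hn0, hζ, ?_, hn, ?_, hgen, ?_⟩
  · have h1 : Algebra.adjoin F₀ ({IsCyclotomicExtension.zeta (Finset.univ.lcm q) F₀ F} : Set F) =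
        ⊤ := IsCyclotomicExtension.adjoin_primitive_root_eq_top hζ
    rw [eq_top_iff]
    intro x _
    exact IntermediateField.algebra_adjoin_le_adjoin F₀ _
      (show x ∈ Algebra.adjoin F₀
        ({IsCyclotomicExtension.zeta (Finset.univ.lcm q) F₀ F} : Set F) from h1 ▸ Algebra.mem_top)
  · rintro _ ⟨i, rfl⟩
    obtain ⟨c, hc⟩ := Finset.dvd_lcm (f := q) (Finset.mem_univ i)
    exact ⟨a i ^ c, by rw [hc, pow_mul, hb, map_pow]⟩
  · intro _
    apply le_antisymm
    · rw [hdeg]
      exact K3_finrank_adjoin_le q hq b fun i => ⟨a i, hb i⟩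
    · exact K3_finrank_le_adjoin (F₀ := F₀) (F := F) _ hgen

end Pool.Agent.AKG
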