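import Pool.Agent.Lib_helper24.AKG.P_K1
import Pool.Agent.Lib_helper24.AKG.P_K2
import Pool.Agent.Lib_helper24.AKG.P_K3
import Pool.Agent.Lib_helper24.AKG.P_C1
import Pool.Agent.Lib_helper24.AKG.P_E4
set_option autoImplicit false
namespace Pool.Agent.AKG
open NumberField IsDedekindDomain

theorem isGalois_of {F H : Type} [Field F] [NumberField F] [Field H] [NumberField H] [Algebra F H]
    {k : ℕ} (q : Fin k → ℕ) (a : Fin k → F)
    [h : Polynomial.IsSplittingField F H (∏ i, (Polynomial.X ^ q i - Polynomial.C (a i)))] :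
    IsGalois F H := by
  have : Normal F H := Normal.of_isSplittingField (∏ i, (Polynomial.X ^ q i - Polynomial.C (a i)))
  exact ⟨⟩

theorem exp_zmod (n : ℕ) : Monoid.exponent (Multiplicative (ZMod n)) = n := by
  rw [Monoid.exponent_multiplicative]
  exact ZMod.exponent n

theorem main {F₀ F H : Type} [Field F₀] [NumberField F₀] [Field F] [NumberField F] [Field H]
    [NumberField H] [Algebra F₀ F] [Algebra F₀ H] [Algebra F H] [IsScalarTower F₀ F H]
    {k : ℕ} (q : Fin k → ℕ) (hq : ∀ i, IsPrimePow (q i))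
    (hF : IsCyclotomicExtension {Finset.univ.lcm q} F₀ F)
    (hn : Module.finrank F₀ F = (Finset.univ.lcm q).totient)
    {a : Fin k → 𝓞 F₀} (ha : Many q a)
    [h : Polynomial.IsSplittingField F H
      (∏ i, (Polynomial.X ^ q i - Polynomial.C (algebraMap F₀ F (a i))))]
    {G : Type} [CommGroup G] [Fintype G] (ι : MulEquiv G (AlgEquiv F H H)) :
    Nonempty (G ≃* ((i : Fin k) → Multiplicative (ZMod (q i)))) ∧
    ∀ (S : Finset (InfinitePlace F ⊕ HeightOneSpectrum (RingOfIntegers F)))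
      (T : Finset (HeightOneSpectrum (RingOfIntegers F))) (r : ℕ)
      (w : Fin r → InfinitePlace H ⊕ HeightOneSpectrum (RingOfIntegers H))
      (fr : HeightOneSpectrum (RingOfIntegers F) → G), RB.Data ι S T w fr →
        RB.RubinOn ⊤ ι S T w fr := by
  classical
  have hq0 : ∀ i, 0 < q i := fun i => (hq i).pos
  have hn0 : Finset.univ.lcm q ≠ 0 := by
    rw [Ne, Finset.lcm_eq_zero_iff]
    rintro ⟨i, -, hi⟩
    exact (hq0 i).ne' hi
  have : NeZero (Finset.univ.lcm q) := ⟨hn0⟩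
  have hGal : IsGalois F H := isGalois_of q fun i => algebraMap F₀ F (a i)
  have hζ : IsPrimitiveRoot (IsCyclotomicExtension.zeta (Finset.univ.lcm q) F₀ F)
      (Finset.univ.lcm q) := IsCyclotomicExtension.zeta_spec _ F₀ F
  obtain ⟨b, hb, hgen⟩ := k1 (F := F) (H := H) q hq0 (fun i => algebraMap F₀ F (a i)) hζ
  have hb' : ∀ i, b i ^ q i = algebraMap F₀ H (a i : F₀) := fun i => by
    rw [hb, ← IsScalarTower.algebraMap_apply]
  have hcop : ∀ m : ℕ, (Finset.univ.lcm q ∣ m + 1 ∨ IsPrimePow (Finset.univ.lcm q) ∧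
        m.Coprime (Finset.univ.lcm q)) → m.Coprime (Finset.univ.lcm q) := by
    rintro m (h1 | h1)
    · exact Nat.Coprime.coprime_dvd_right h1 (by simp)
    · exact h1.2
  have hv : ∀ i, ∃ v : HeightOneSpectrum (𝓞 F), RSK.ordv v (algebraMap F₀ F (a i)) = 1 ∧
      ∀ j, j ≠ i → RSK.ordv v (algebraMap F₀ F (a j)) = 0 := by
    intro i
    obtain ⟨p, hp, hpi⟩ := Nat.exists_prime_and_dvd (hq i).one_lt.ne'
    obtain ⟨s, hs, hsv⟩ := ha i p _ _ hp hpi rfl rfl
    obtain ⟨v, hvs⟩ := Finset.card_pos.1 (lt_of_le_of_lt (Nat.zero_le _) hs)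
    obtain ⟨h1, h2, h3, h4⟩ := hsv v hvs
    obtain ⟨V, hV⟩ := KR.exists_W F v
    have hun := v1 (F₀ := F₀) (F := F) (Nat.pos_of_ne_zero hn0) hF (V := V)
      (by rw [hV]; exact hcop _ h1)
    refine ⟨V, ?_, fun j hj => ?_⟩
    · rw [RSK.ordv_unr hun, hV]
      exact (v2 v (a i)).2 h2 h3
    · rw [RSK.ordv_unr hun, hV]
      exact (v2 v (a j)).1 (h4 j hj)
  obtain ⟨hdeg, ⟨e⟩⟩ := k2 q hq0 _ hζ hb hgen hv
  refine ⟨⟨ι.trans e⟩, fun S T r w fr hD => ?_⟩
  have hK := k3 (F₀ := F₀) (F := F) (H := H) q hq0 hF hn hb' hgen hdeg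
  have hH : HM.HolAll ι := HM.holAll_of ι (Or.inr (Or.inl (RB.kumN_of hK)))
  refine RB.large ι hH hD fun p e' f' hp hpG he' hf' => ?_
  have hcard : Nat.card G = ∏ i, q i := by
    rw [Nat.card_congr (ι.trans e).toEquiv, Nat.card_pi]
    refine Finset.prod_congr rfl fun i _ => ?_
    show Nat.card (ZMod (q i)) = q i
    rw [Nat.card_zmod]
  have hexp : Monoid.exponent G = Finset.univ.lcm q := by
    rw [Monoid.exponent_eq_of_mulEquiv (ι.trans e), Monoid.exponent_pi]
    refine Finset.lcm_congr rfl fun i _ => ?_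
    exact exp_zmod (q i)
  rw [hcard] at hpG
  obtain ⟨i, -, hpi⟩ := (Prime.dvd_finsetProd_iff hp.prime q).1 hpG
  obtain ⟨s, hs, hsv⟩ := ha i p e' f' hp hpi (by rw [← hcard]; exact he') (by rw [← hexp]; exact hf')
  exact lt_of_lt_of_le hs (c1 q hq hF hb' hgen i hsv hp hpi hD)

end Pool.Agent.AKG
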