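import Pool.Agent.Lib_helper24.AKG.Defs

/-! Block D1 (project AKG): congruences of numbers, roots of unity modulo a place. -/

namespace Pool.Agent.AKG
open NumberField IsDedekindDomain

/-- a congruence of numbers -/
theorem d1 {n c N M : ℕ} (hn : 2 < n) (hM : n ∣ M + 1) (hN : ∃ t, N = M ^ t) (hnN : n ∣ N - 1)
    (hN1 : 1 < N) (hc : c ∣ n) : c * (M - 1) ∣ N - 1 := by
  obtain ⟨t, rfl⟩ := hN
  have hM2 : n ≤ M + 1 := Nat.le_of_dvd (by omega) hM
  have hM1 : 1 ≤ M := by omega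
  have ht : Even t := by
    by_contra hodd
    rw [Nat.not_even_iff_odd] at hodd
    have h1 : M + 1 ∣ M ^ t + 1 := by
      have := Odd.nat_add_dvd_pow_add_pow M 1 hodd
      simpa using this
    have h2 : n ∣ M ^ t + 1 := hM.trans h1
    have h3 : n ∣ (M ^ t + 1) - (M ^ t - 1) := Nat.dvd_sub h2 hnN
    have h4 : (M ^ t + 1) - (M ^ t - 1) = 2 := by omega
    rw [h4] at h3
    have := Nat.le_of_dvd (by norm_num) h3
    omega
  obtain ⟨s, rfl⟩ := ht
  have h1 : M ^ 2 - 1 ∣ M ^ (s + s) - 1 := by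
    have h2 := Nat.sub_dvd_pow_sub_pow (M ^ 2) 1 s
    rw [one_pow, ← pow_mul] at h2
    have h3 : 2 * s = s + s := by ring
    rwa [h3] at h2
  refine dvd_trans ?_ h1
  have h2 : M ^ 2 - 1 = (M + 1) * (M - 1) := by
    have := Nat.sq_sub_sq M 1
    simpa using this
  rw [h2]
  exact Nat.mul_dvd_mul_right (hc.trans hM) _

/-- roots of unity are distinct modulo places prime to their order -/
theorem d2 {H : Type} [Field H] [NumberField H] (W : HeightOneSpectrum (𝓞 H)) {m : ℕ} (hm : 0 < m)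
    (hW : (m : 𝓞 H) ∉ W.asIdeal) {z : 𝓞 H} (hz : z ^ m = 1) (h1 : z - 1 ∈ W.asIdeal) : z = 1 := by
  by_contra hne
  have h2 : (z - 1) * ∑ i ∈ Finset.range m, z ^ i = 0 := by
    rw [mul_comm, geom_sum_mul, hz, sub_self]
  have h3 : ∑ i ∈ Finset.range m, z ^ i = 0 := by
    rcases mul_eq_zero.1 h2 with h | h
    · exact absurd (sub_eq_zero.1 h) hne
    · exact h
  apply hW
  have h4 : (m : 𝓞 H) = - ∑ i ∈ Finset.range m, (z ^ i - 1) := by
    rw [Finset.sum_sub_distrib, h3]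
    simp
  rw [h4]
  refine W.asIdeal.neg_mem (Submodule.sum_mem _ fun i _ => ?_)
  obtain ⟨y, hy⟩ := sub_dvd_pow_sub_pow z 1 i
  rw [one_pow] at hy
  rw [hy]
  exact W.asIdeal.mul_mem_right _ h1

/-- `n` divides `N V - 1` -/
theorem d3 {F : Type} [Field F] [NumberField F] (V : HeightOneSpectrum (𝓞 F)) {n : ℕ} (hn : 0 < n)
    {ζ : F} (hζ : IsPrimitiveRoot ζ n) (hV : (n : 𝓞 F) ∉ V.asIdeal) :
    n ∣ Ideal.absNorm V.asIdeal - 1 := by
  haveI : NeZero n := ⟨hn.ne'⟩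
  have hz := hζ.toInteger_isPrimitiveRoot
  set z : 𝓞 F := hζ.toInteger with hzdef
  haveI : V.asIdeal.IsMaximal := V.isMaximal
  letI : Field (𝓞 F ⧸ V.asIdeal) := Ideal.Quotient.field _
  haveI : Finite (𝓞 F ⧸ V.asIdeal) := Ideal.finiteQuotientOfFreeOfNeBot _ V.ne_bot
  letI : Fintype (𝓞 F ⧸ V.asIdeal) := Fintype.ofFinite _
  have hcard : Ideal.absNorm V.asIdeal = Fintype.card (𝓞 F ⧸ V.asIdeal) := by
    rw [Ideal.absNorm_apply, Submodule.cardQuot_apply, Nat.card_eq_fintype_card]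
  have hz0 : Ideal.Quotient.mk V.asIdeal z ≠ 0 := by
    intro h
    have h1 : (Ideal.Quotient.mk V.asIdeal z) ^ n = 1 := by
      rw [← map_pow, hz.pow_eq_one, map_one]
    rw [h, zero_pow hn.ne'] at h1
    exact zero_ne_one h1
  have h1 := FiniteField.pow_card_sub_one_eq_one _ hz0
  rw [← hcard, ← map_pow, ← map_one (Ideal.Quotient.mk V.asIdeal), Ideal.Quotient.eq] at h1
  apply hz.dvd_of_pow_eq_one
  refine d2 V hn hV ?_ h1
  rw [← pow_mul, mul_comm, pow_mul, hz.pow_eq_one, one_pow]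

end Pool.Agent.AKG
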