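import Pool.Agent.Lib_helper17.RS.Defs

namespace Pool.Agent.AKG

open NumberField IsDedekindDomain

/-- the roots of `X ^ N - X` in an extension of a field with `N` elements lie in the field -/
theorem D4_roots {k K : Type} [Field k] [Finite k] [Field K] (φ : k →+* K) {x : K}
    (hx : x ^ (Nat.card k) = x) : ∃ z : k, φ z = x := by
  classical
  have := Fintype.ofFinite k
  rw [Nat.card_eq_fintype_card] at hx
  have hN : 1 < Fintype.card k := Fintype.one_lt_card
  have hP : (Polynomial.X ^ Fintype.card k - Polynomial.X : Polynomial K) ≠ 0 :=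
    FiniteField.X_pow_card_sub_X_ne_zero K hN
  have hdeg : (Polynomial.X ^ Fintype.card k - Polynomial.X : Polynomial K).natDegree =
      Fintype.card k := FiniteField.X_pow_card_sub_X_natDegree_eq K hN
  have hmem : ∀ y : K, y ∈ (Polynomial.X ^ Fintype.card k - Polynomial.X : Polynomial K).roots.toFinset
      ↔ y ^ Fintype.card k = y := by
    intro y
    rw [Multiset.mem_toFinset, Polynomial.mem_roots hP, Polynomial.IsRoot.def]
    simp [sub_eq_zero]
  have hsub : Finset.univ.image φ ⊆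
      (Polynomial.X ^ Fintype.card k - Polynomial.X : Polynomial K).roots.toFinset := by
    intro y hy
    obtain ⟨z, -, rfl⟩ := Finset.mem_image.1 hy
    rw [hmem, ← map_pow, FiniteField.pow_card]
  have hcard : (Polynomial.X ^ Fintype.card k - Polynomial.X : Polynomial K).roots.toFinset.card ≤
      (Finset.univ.image φ).card := by
    rw [Finset.card_image_of_injective _ φ.injective, Finset.card_univ]
    calc (Polynomial.X ^ Fintype.card k - Polynomial.X : Polynomial K).roots.toFinset.card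
        ≤ Multiset.card (Polynomial.X ^ Fintype.card k - Polynomial.X : Polynomial K).roots :=
          Multiset.toFinset_card_le _
      _ ≤ (Polynomial.X ^ Fintype.card k - Polynomial.X : Polynomial K).natDegree :=
          Polynomial.card_roots' _
      _ = Fintype.card k := hdeg
  have heq := Finset.eq_of_subset_of_card_le hsub hcard
  have hx2 := (hmem x).2 hx
  rw [← heq] at hx2
  obtain ⟨z, -, hz⟩ := Finset.mem_image.1 hx2
  exact ⟨z, hz⟩

/-- an element whose `(N V - 1)`-st power is `1` modulo `W` is fixed modulo `W` by the decomposition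
group -/
theorem d4 {F H : Type} [Field F] [NumberField F] [Field H] [NumberField H] [Algebra F H]
    (W : HeightOneSpectrum (𝓞 H)) {x y : 𝓞 H}
    (hx : x ^ (Ideal.absNorm (W.under (𝓞 F)).asIdeal) - x ∈ W.asIdeal) {σ : H ≃ₐ[F] H}
    (hσ : RSK.act σ (Sum.inr W) = Sum.inr W) (hy : (y : H) = σ (x : H)) : y - x ∈ W.asIdeal := by
  classical
  have hVm : (W.under (𝓞 F)).asIdeal.IsMaximal := (W.under (𝓞 F)).isMaximal
  have hWm : W.asIdeal.IsMaximal := W.isMaximal
  letI := Ideal.Quotient.field (W.under (𝓞 F)).asIdeal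
  letI := Ideal.Quotient.field W.asIdeal
  have hfin : Finite (𝓞 F ⧸ (W.under (𝓞 F)).asIdeal) :=
    Ideal.finiteQuotientOfFreeOfNeBot _ (W.under (𝓞 F)).ne_bot
  let φ : (𝓞 F ⧸ (W.under (𝓞 F)).asIdeal) →+* (𝓞 H ⧸ W.asIdeal) :=
    Ideal.quotientMap W.asIdeal (algebraMap (𝓞 F) (𝓞 H)) le_rfl
  have hcard : Nat.card (𝓞 F ⧸ (W.under (𝓞 F)).asIdeal) =
      Ideal.absNorm (W.under (𝓞 F)).asIdeal := by
    rw [Ideal.absNorm_apply]
    rfl
  have h1 : (Ideal.Quotient.mk W.asIdeal x) ^ (Nat.card (𝓞 F ⧸ (W.under (𝓞 F)).asIdeal)) =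
      Ideal.Quotient.mk W.asIdeal x := by
    rw [hcard, ← map_pow]
    exact Ideal.Quotient.eq.2 hx
  obtain ⟨z, hz⟩ := D4_roots φ h1
  obtain ⟨x0, rfl⟩ := Ideal.Quotient.mk_surjective z
  have h2 : x - algebraMap (𝓞 F) (𝓞 H) x0 ∈ W.asIdeal := by
    apply Ideal.Quotient.eq.1
    rw [← hz]
    rfl
  let e : 𝓞 H ≃+* 𝓞 H := RingOfIntegers.mapRingEquiv σ.toRingEquiv
  have h3 : HeightOneSpectrum.equivOfRingEquiv e W = W := Sum.inr_injective hσ
  have h4 : e (x - algebraMap (𝓞 F) (𝓞 H) x0) ∈ W.asIdeal := by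
    have h5 : e (x - algebraMap (𝓞 F) (𝓞 H) x0) ∈
        (HeightOneSpectrum.equivOfRingEquiv e W).asIdeal := by
      show e.symm (e (x - algebraMap (𝓞 F) (𝓞 H) x0)) ∈ W.asIdeal
      rw [RingEquiv.symm_apply_apply]
      exact h2
    rwa [h3] at h5
  have h6 : e x = y := by
    apply RingOfIntegers.ext
    show σ (x : H) = (y : H)
    exact hy.symm
  have h7 : e (algebraMap (𝓞 F) (𝓞 H) x0) = algebraMap (𝓞 F) (𝓞 H) x0 := by
    apply RingOfIntegers.ext
    show σ ((algebraMap (𝓞 F) (𝓞 H) x0 : 𝓞 H) : H) = ((algebraMap (𝓞 F) (𝓞 H) x0 : 𝓞 H) : H)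
    exact σ.commutes (x0 : F)
  rw [map_sub, h6, h7] at h4
  have h8 : y - x = (y - algebraMap (𝓞 F) (𝓞 H) x0) - (x - algebraMap (𝓞 F) (𝓞 H) x0) := by ring
  rw [h8]
  exact sub_mem h4 h2

end Pool.Agent.AKG
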