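import Pool.Agent.Lib_helper24.AKG.Defs
import Pool.Agent.Lib_helper24.AKG.P_D1
import Pool.Agent.Lib_helper24.AKG.P_D4
namespace Pool.Agent.AKG
open NumberField IsDedekindDomain

/-! ### D5 -/

theorem D5_card {K : Type} [Field K] [NumberField K] (v : HeightOneSpectrum (𝓞 K)) :
    Ideal.absNorm v.asIdeal = Nat.card (𝓞 K ⧸ v.asIdeal) := by
  rw [Ideal.absNorm_apply, Submodule.cardQuot_apply]

theorem D5_one_lt {K : Type} [Field K] [NumberField K] (v : HeightOneSpectrum (𝓞 K)) :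
    1 < Ideal.absNorm v.asIdeal := by
  have h1 : Ideal.absNorm v.asIdeal ≠ 0 := by
    rw [Ne, Ideal.absNorm_eq_zero_iff]
    exact v.ne_bot
  have h2 : Ideal.absNorm v.asIdeal ≠ 1 := by
    rw [Ne, Ideal.absNorm_eq_one_iff]
    exact v.isPrime.ne_top
  omega

theorem D5_pow {K : Type} [Field K] [NumberField K] (v : HeightOneSpectrum (𝓞 K)) {a : 𝓞 K}
    (ha : a ∉ v.asIdeal) : a ^ (Ideal.absNorm v.asIdeal - 1) - 1 ∈ v.asIdeal := by
  have hm : v.asIdeal.IsMaximal := v.isMaximal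
  let _ : Field (𝓞 K ⧸ v.asIdeal) := Ideal.Quotient.field v.asIdeal
  have : Finite (𝓞 K ⧸ v.asIdeal) := Ideal.finiteQuotientOfFreeOfNeBot _ v.ne_bot
  let _ : Fintype (𝓞 K ⧸ v.asIdeal) := Fintype.ofFinite _
  rw [← Ideal.Quotient.eq_zero_iff_mem, map_sub, map_pow, map_one, sub_eq_zero, D5_card,
    Nat.card_eq_fintype_card]
  exact FiniteField.pow_card_sub_one_eq_one _ (fun h => ha (Ideal.Quotient.eq_zero_iff_mem.1 h))

theorem D5_norm {F₀ F : Type} [Field F₀] [NumberField F₀] [Field F] [NumberField F] [Algebra F₀ F]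
    (V : HeightOneSpectrum (𝓞 F)) : ∃ t, Ideal.absNorm V.asIdeal =
      Ideal.absNorm (V.under (𝓞 F₀)).asIdeal ^ t := by
  have hm : V.asIdeal.IsMaximal := V.isMaximal
  have hm' : (V.under (𝓞 F₀)).asIdeal.IsMaximal := (V.under (𝓞 F₀)).isMaximal
  have hl : V.asIdeal.LiesOver (V.under (𝓞 F₀)).asIdeal := ⟨rfl⟩
  let _ : Field (𝓞 F₀ ⧸ (V.under (𝓞 F₀)).asIdeal) := Ideal.Quotient.field _
  refine ⟨Module.finrank (𝓞 F₀ ⧸ (V.under (𝓞 F₀)).asIdeal) (𝓞 F ⧸ V.asIdeal), ?_⟩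
  rw [D5_card, D5_card]
  exact Module.natCard_eq_pow_finrank

/-- the action of `σ` on a root of `a ∈ F` is multiplication by a root of unity of `F` -/
theorem D5_root {F H : Type} [Field F] [Field H] [Algebra F H] {q n : ℕ} (hn : 0 < n)
    (hqn : q ∣ n) {ζ : F} (hζ : IsPrimitiveRoot ζ n) {a : F} {b : H}
    (hb : b ^ q = algebraMap F H a) (σ : H ≃ₐ[F] H) :
    ∃ z : F, z ^ q = 1 ∧ σ b = algebraMap F H z * b := by
  have h1 : (σ b) ^ q = b ^ q := by rw [← map_pow, hb, AlgEquiv.commutes]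
  by_cases hb0 : b = 0
  · exact ⟨1, one_pow _, by rw [hb0, map_zero, mul_zero]⟩
  · have h2 : (σ b / b) ^ q = 1 := by
      rw [div_pow, h1, div_self (pow_ne_zero _ hb0)]
    have h3 : (σ b / b) ^ n = 1 := by
      obtain ⟨c, rfl⟩ := hqn
      rw [pow_mul, h2, one_pow]
    have : NeZero n := ⟨hn.ne'⟩
    obtain ⟨i, -, hi⟩ := (hζ.map_of_injective (algebraMap F H).injective).eq_pow_of_pow_eq_one h3
    refine ⟨ζ ^ i, ?_, ?_⟩
    · apply (algebraMap F H).injective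
      rw [map_pow, map_pow, map_one, hi, h2]
    · rw [map_pow, hi, div_mul_cancel₀ _ hb0]

theorem D5_iter {F H : Type} [Field F] [Field H] [Algebra F H] {z : F} {b : H} {σ : H ≃ₐ[F] H}
    (h : σ b = algebraMap F H z * b) (N : ℕ) : (σ ^ N) b = algebraMap F H (z ^ N) * b := by
  induction N with
  | zero => simp
  | succ N ih =>
    rw [pow_succ', AlgEquiv.mul_apply, ih, map_mul, AlgEquiv.commutes, h, pow_succ, map_mul]
    ring

/-- an automorphism which fixes the generators is trivial -/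
theorem D5_one {F H : Type} [Field F] [Field H] [Algebra F H] {B : Set H}
    (hgen : IntermediateField.adjoin F B = ⊤) {σ : H ≃ₐ[F] H} (h : ∀ b ∈ B, σ b = b) : σ = 1 := by
  have h1 : B ⊆ (IntermediateField.fixedField (Subgroup.zpowers σ) : Set H) := by
    intro b hb
    rw [SetLike.mem_coe, IntermediateField.mem_fixedField_iff]
    intro f hf
    obtain ⟨k, rfl⟩ := Subgroup.mem_zpowers_iff.1 hf
    exact (MulAction.mem_stabilizer_iff (G := H ≃ₐ[F] H) (a := b)).1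
      (Subgroup.zpow_mem _ ((MulAction.mem_stabilizer_iff).2 (h b hb)) k)
  have h2 := IntermediateField.adjoin_le_iff.2 h1
  rw [hgen] at h2
  ext x
  have h3 : x ∈ IntermediateField.fixedField (Subgroup.zpowers σ) := h2 (by simp)
  rw [IntermediateField.mem_fixedField_iff] at h3
  exact h3 σ (Subgroup.mem_zpowers σ)

theorem D5_fix {F₀ F H : Type} [Field F₀] [NumberField F₀] [Field F] [NumberField F] [Field H]
    [NumberField H] [Algebra F₀ F] [Algebra F₀ H] [Algebra F H] [IsScalarTower F₀ F H]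
    {q n : ℕ} (hq : 0 < q) (hn : 2 < n) (hqn : q ∣ n) {ζ : F} (hζ : IsPrimitiveRoot ζ n)
    {a : 𝓞 F₀} {b : H} (hb : b ^ q = algebraMap F₀ H (a : F₀)) (W : HeightOneSpectrum (𝓞 H))
    (hV : n ∣ Ideal.absNorm ((W.under (𝓞 F)).under (𝓞 F₀)).asIdeal + 1)
    (ha : a ∉ ((W.under (𝓞 F)).under (𝓞 F₀)).asIdeal) {σ : H ≃ₐ[F] H}
    (hσ : RSK.act σ (Sum.inr W) = Sum.inr W) : σ b = b := by
  set V := W.under (𝓞 F) with hVd
  set v := V.under (𝓞 F₀) with hvd
  set M := Ideal.absNorm v.asIdeal with hM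
  have hM1 : 1 < M := D5_one_lt v
  -- `n` is a unit modulo the places
  have hMv : ((M : ℕ) : 𝓞 F₀) ∈ v.asIdeal := Ideal.absNorm_mem v.asIdeal
  have hMV : ((M : ℕ) : 𝓞 F) ∈ V.asIdeal := by
    have : algebraMap (𝓞 F₀) (𝓞 F) ((M : ℕ) : 𝓞 F₀) ∈ V.asIdeal := hMv
    rwa [map_natCast] at this
  have hMW : ((M : ℕ) : 𝓞 H) ∈ W.asIdeal := by
    have : algebraMap (𝓞 F) (𝓞 H) ((M : ℕ) : 𝓞 F) ∈ W.asIdeal := hMV
    rwa [map_natCast] at this
  have hnV : ((n : ℕ) : 𝓞 F) ∉ V.asIdeal := by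
    intro h
    obtain ⟨c, hc⟩ := hV
    apply V.isPrime.ne_top
    rw [Ideal.eq_top_iff_one]
    have h1 : (1 : 𝓞 F) = (n : 𝓞 F) * (c : 𝓞 F) - (M : 𝓞 F) := by
      rw [← Nat.cast_mul, ← hc]; push_cast; ring
    rw [h1]
    exact V.asIdeal.sub_mem (V.asIdeal.mul_mem_right _ h) hMV
  have hqW : ((q : ℕ) : 𝓞 H) ∉ W.asIdeal := by
    intro h
    obtain ⟨c, hc⟩ := dvd_trans hqn hV
    apply W.isPrime.ne_top
    rw [Ideal.eq_top_iff_one]
    have h1 : (1 : 𝓞 H) = (q : 𝓞 H) * (c : 𝓞 H) - (M : 𝓞 H) := by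
      rw [← Nat.cast_mul, ← hc]; push_cast; ring
    rw [h1]
    exact W.asIdeal.sub_mem (W.asIdeal.mul_mem_right _ h) hMW
  -- the integral element `x = b`
  have hint : IsIntegral ℤ b := by
    apply IsIntegral.of_pow hq
    rw [hb]
    exact (RingOfIntegers.isIntegral_coe a).map (IsScalarTower.toAlgHom ℤ F₀ H)
  set x : 𝓞 H := ⟨b, hint⟩ with hx
  set aF : 𝓞 F := algebraMap (𝓞 F₀) (𝓞 F) a with haF
  have hxq : x ^ q = algebraMap (𝓞 F) (𝓞 H) aF := by
    apply RingOfIntegers.coe_injective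
    rw [map_pow]
    exact hb.trans (IsScalarTower.algebraMap_apply F₀ F H _)
  have hxW : x ∉ W.asIdeal := by
    intro h
    have h1 : x ^ q ∈ W.asIdeal := Ideal.pow_mem_of_mem _ h _ hq
    rw [hxq] at h1
    exact ha h1
  -- the power of `x`
  have h1 : aF ^ (M - 1) - 1 ∈ V.asIdeal := by
    have h : algebraMap (𝓞 F₀) (𝓞 F) (a ^ (M - 1) - 1) ∈ V.asIdeal := D5_pow v ha
    rwa [map_sub, map_pow, map_one] at h
  obtain ⟨l, hl⟩ : q * (M - 1) ∣ Ideal.absNorm V.asIdeal - 1 :=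
    d1 hn hV (D5_norm V) (d3 V (by omega) hζ hnV) (D5_one_lt V) hqn
  have h3 : x ^ (Ideal.absNorm V.asIdeal - 1) - 1 ∈ W.asIdeal := by
    have h : algebraMap (𝓞 F) (𝓞 H) (aF ^ (M - 1) - 1) ∈ W.asIdeal := h1
    rw [map_sub, map_pow, map_one, ← hxq, ← pow_mul] at h
    rw [hl, pow_mul]
    exact Ideal.mem_of_dvd _ (sub_one_dvd_pow_sub_one _ _) h
  have h4 : x ^ (Ideal.absNorm (W.under (𝓞 F)).asIdeal) - x ∈ W.asIdeal := by
    have e : x ^ (Ideal.absNorm V.asIdeal) - x =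
        x * (x ^ (Ideal.absNorm V.asIdeal - 1) - 1) := by
      rw [mul_sub, mul_one, ← pow_succ', Nat.sub_add_cancel (D5_one_lt V).le]
    rw [← hVd, e]
    exact W.asIdeal.mul_mem_left _ h3
  have hb' : b ^ q = algebraMap F H (algebraMap F₀ F (a : F₀)) :=
    hb.trans (IsScalarTower.algebraMap_apply F₀ F H _)
  obtain ⟨z, hz, hσz⟩ := D5_root (by omega) hqn hζ hb' σ
  have hzint : IsIntegral ℤ (algebraMap F H z) := by
    apply IsIntegral.of_pow hq
    rw [← map_pow, hz, map_one]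
    exact isIntegral_one
  set zH : 𝓞 H := ⟨algebraMap F H z, hzint⟩ with hzH
  have h5 := d4 W h4 hσ (y := zH * x) (hσz.symm)
  have h6 : (zH - 1) * x ∈ W.asIdeal := by
    rw [sub_mul, one_mul]
    exact h5
  have h7 := (W.isPrime.mem_or_mem h6).resolve_right hxW
  have hzq : zH ^ q = 1 := by
    apply RingOfIntegers.coe_injective
    rw [map_pow, map_one]
    show (algebraMap F H z) ^ q = 1
    rw [← map_pow, hz, map_one]
  have h8 := d2 W hq hqW hzq h7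
  have h9 : algebraMap F H z = 1 := congrArg (fun t : 𝓞 H => (t : H)) h8
  rw [hσz, h9, one_mul]

theorem D5_core {F₀ F H : Type} [Field F₀] [NumberField F₀] [Field F] [NumberField F] [Field H]
    [NumberField H] [Algebra F₀ F] [Algebra F₀ H] [Algebra F H] [IsScalarTower F₀ F H]
    {k : ℕ} (q : Fin k → ℕ) (hq : ∀ i, IsPrimePow (q i)) {ζ : F}
    (hζ : IsPrimitiveRoot ζ (Finset.univ.lcm q)) {a : Fin k → 𝓞 F₀} {b : Fin k → H}
    (hb : ∀ i, b i ^ q i = algebraMap F₀ H (a i : F₀))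
    (hgen : IntermediateField.adjoin F (Set.range b) = ⊤) (i : Fin k)
    (W : HeightOneSpectrum (𝓞 H))
    (hV : Finset.univ.lcm q ∣ Ideal.absNorm ((W.under (𝓞 F)).under (𝓞 F₀)).asIdeal + 1 ∨
      IsPrimePow (Finset.univ.lcm q))
    (ha : ∀ j, j ≠ i → a j ∉ ((W.under (𝓞 F)).under (𝓞 F₀)).asIdeal) {p : ℕ} (hp : p.Prime)
    (hpi : p ∣ q i) {σ : H ≃ₐ[F] H} (hσ : RSK.act σ (Sum.inr W) = Sum.inr W) :
    ∃ m, σ ^ p ^ m = 1 := by
  have hdvd : ∀ j, q j ∣ Finset.univ.lcm q := fun j => Finset.dvd_lcm (Finset.mem_univ j)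
  have hn0 : Finset.univ.lcm q ≠ 0 := by
    rw [Ne, Finset.lcm_eq_zero_iff]
    rintro ⟨j, -, hj⟩
    exact (hq j).pos.ne' hj
  have hb' : ∀ j, b j ^ q j = algebraMap F H (algebraMap F₀ F (a j : F₀)) := fun j =>
    (hb j).trans (IsScalarTower.algebraMap_apply F₀ F H _)
  -- prime powers
  have hpp : ∀ c : ℕ, IsPrimePow c → p ∣ c → ∃ m, c = p ^ m := by
    intro c hc hpc
    obtain ⟨l, m, hl, -, rfl⟩ := (isPrimePow_nat_iff c).1 hc
    have h1 : p = l := (Nat.prime_dvd_prime_iff_eq hp hl).1 (hp.dvd_of_dvd_pow hpc)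
    exact ⟨m, by rw [h1]⟩
  have key : ∀ j, ∃ m, ∀ N, p ^ m ∣ N → (σ ^ N) (b j) = b j := by
    intro j
    obtain ⟨z, hz, hσz⟩ := D5_root (Nat.pos_of_ne_zero hn0) (hdvd j) hζ (hb' j) σ
    have h1 : ∀ c : ℕ, IsPrimePow c → p ∣ c → z ^ c = 1 →
        ∃ m, ∀ N, p ^ m ∣ N → (σ ^ N) (b j) = b j := by
      intro c hc hpc hzc
      obtain ⟨m, rfl⟩ := hpp c hc hpc
      refine ⟨m, ?_⟩
      rintro N ⟨t, rfl⟩
      rw [D5_iter hσz, pow_mul, hzc, one_pow, map_one, one_mul]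
    by_cases hn : IsPrimePow (Finset.univ.lcm q)
    · refine h1 _ hn (hpi.trans (hdvd i)) ?_
      obtain ⟨c, hc⟩ := hdvd j
      rw [hc, pow_mul, hz, one_pow]
    · by_cases hpj : p ∣ q j
      · exact h1 _ (hq j) hpj hz
      · have hji : j ≠ i := by
          rintro rfl
          exact hpj hpi
        have hn2 : 2 < Finset.univ.lcm q := by
          have h2 : 2 ≤ q i := (hq i).two_le
          have h3 : q i ≤ Finset.univ.lcm q := Nat.le_of_dvd (Nat.pos_of_ne_zero hn0) (hdvd i)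
          rcases Nat.lt_or_ge 2 (Finset.univ.lcm q) with h4 | h4
          · exact h4
          · exfalso
            have h5 : Finset.univ.lcm q = 2 := by omega
            exact hn (by rw [h5]; exact Nat.prime_two.isPrimePow)
        have h2 := D5_fix (hq j).pos hn2 (hdvd j) hζ (hb j) W (hV.resolve_right hn) (ha j hji) hσ
        refine ⟨0, fun N _ => ?_⟩
        rw [D5_iter (z := (1 : F)) (by rw [h2, map_one, one_mul]), one_pow, map_one, one_mul]
  choose m hm using key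
  refine ⟨∑ j, m j, D5_one hgen ?_⟩
  rintro _ ⟨j, rfl⟩
  exact hm j _ (pow_dvd_pow p (Finset.single_le_sum (f := m) (fun _ _ => Nat.zero_le _)
    (Finset.mem_univ j)))

/-- the decomposition group at a place which divides only `a_i` is a `p`-group -/
theorem d5 {F₀ F H : Type} [Field F₀] [NumberField F₀] [Field F] [NumberField F] [Field H]
    [NumberField H] [Algebra F₀ F] [Algebra F₀ H] [Algebra F H] [IsScalarTower F₀ F H]
    [IsGalois F H] {k : ℕ} (q : Fin k → ℕ) (hq : ∀ i, IsPrimePow (q i)) {ζ : F}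
    (hζ : IsPrimitiveRoot ζ (Finset.univ.lcm q)) {a : Fin k → 𝓞 F₀} {b : Fin k → H}
    (hb : ∀ i, b i ^ q i = algebraMap F₀ H (a i : F₀))
    (hgen : IntermediateField.adjoin F (Set.range b) = ⊤) (i : Fin k)
    (V : HeightOneSpectrum (𝓞 F))
    (hV : Finset.univ.lcm q ∣ Ideal.absNorm (V.under (𝓞 F₀)).asIdeal + 1 ∨
      IsPrimePow (Finset.univ.lcm q))
    (ha : ∀ j, j ≠ i → a j ∉ (V.under (𝓞 F₀)).asIdeal) {p : ℕ} (hp : p.Prime) (hpi : p ∣ q i)
    {G : Type} [CommGroup G] [Fintype G] (ι : G ≃* (H ≃ₐ[F] H)) :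
    IsPGroup p (RB.Dg ι (Sum.inr V)) := by
  obtain ⟨W, hW⟩ := KR.exists_W H V
  subst hW
  rintro ⟨g, hg⟩
  rw [RB.dg_eq] at hg
  have hσ : RSK.act (ι g) (Sum.inr W) = Sum.inr W := hg (Sum.inr W) rfl
  obtain ⟨m, hm⟩ := D5_core q hq hζ hb hgen i W hV ha hp hpi hσ
  refine ⟨m, Subtype.ext ?_⟩
  rw [← map_pow] at hm
  have h1 : g ^ p ^ m = 1 := ι.injective (by rw [hm, map_one])
  exact h1

end Pool.Agent.AKG
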