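import Mathlib

/-!
# AKG, block E1: almost all integral points satisfy many independent congruence conditions
(generalises `Lib_helper17/KR/Dens.lean`)
-/

set_option autoImplicit false
set_option linter.unusedSectionVars false

namespace Pool.Agent.AKG

open Finset

section E1

variable {I : Type} [Fintype I] [DecidableEq I]

open scoped Classical in
/-- the weight of a residue class -/
noncomputable def E1_wt {k : ℕ} (E : Fin k → (l : ℕ) → Set (I → ZMod (l ^ 2))) (i : Fin k) (l : ℕ)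
    (y : I → ZMod (l ^ 2)) : ℝ :=
  if y ∈ E i l then 2⁻¹ else 1

theorem E1_wt_nonneg {k : ℕ} (E : Fin k → (l : ℕ) → Set (I → ZMod (l ^ 2))) (i : Fin k) (l : ℕ)
    (y : I → ZMod (l ^ 2)) : 0 ≤ E1_wt E i l y := by
  unfold E1_wt
  split_ifs <;> norm_num

theorem E1_sum_wt {k : ℕ} (E : Fin k → (l : ℕ) → Set (I → ZMod (l ^ 2))) {c : ℝ} (i : Fin k)
    {l : ℕ} [NeZero (l ^ 2)]
    (hE : c / l * ((l : ℝ) ^ 2) ^ Fintype.card I ≤ Nat.card (E i l)) :
    ∑ y : I → ZMod (l ^ 2), E1_wt E i l y ≤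
      (((l : ℝ) ^ 2) ^ Fintype.card I) * Real.exp (-(c / 2 / l)) := by
  classical
  have h1 : ∀ y : I → ZMod (l ^ 2), E1_wt E i l y =
      1 - 2⁻¹ * (if y ∈ E i l then (1 : ℝ) else 0) := by
    intro y
    unfold E1_wt
    split_ifs <;> norm_num
  rw [sum_congr rfl fun y _ => h1 y, sum_sub_distrib, ← mul_sum, sum_boole]
  have h2 : c / l * ((l : ℝ) ^ 2) ^ Fintype.card I ≤
      ((univ.filter fun y : I → ZMod (l ^ 2) => y ∈ E i l).card : ℝ) := by
    have h3 : Nat.card (E i l) = (univ.filter fun y : I → ZMod (l ^ 2) => y ∈ E i l).card :=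
      Nat.subtype_card _ (by simp)
    rw [← h3]
    exact hE
  have h3 : ∑ _y : I → ZMod (l ^ 2), (1 : ℝ) = ((l : ℝ) ^ 2) ^ Fintype.card I := by
    simp [ZMod.card]
  rw [h3]
  have h4 : 1 - c / 2 / (l : ℝ) ≤ Real.exp (-(c / 2 / l)) := by
    have := Real.add_one_le_exp (-(c / 2 / (l : ℝ)))
    linarith
  have h5 : (0 : ℝ) ≤ ((l : ℝ) ^ 2) ^ Fintype.card I := by positivity
  calc ((l : ℝ) ^ 2) ^ Fintype.card I -
        2⁻¹ * ((univ.filter fun y : I → ZMod (l ^ 2) => y ∈ E i l).card : ℝ)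
      ≤ ((l : ℝ) ^ 2) ^ Fintype.card I - 2⁻¹ * (c / l * ((l : ℝ) ^ 2) ^ Fintype.card I) := by
        linarith
    _ = ((l : ℝ) ^ 2) ^ Fintype.card I * (1 - c / 2 / (l : ℝ)) := by ring
    _ ≤ _ := mul_le_mul_of_nonneg_left h4 h5

/-- The residue classes of the coordinates modulo the squares of the primes in `P`. -/
def E1_cls (P : Finset ℕ) (a : I → ℤ) : (l : P) → I → ZMod ((l : ℕ) ^ 2) :=
  fun _ j => ((a j : ℤ) : ZMod _)

theorem E1_fiber_card {P : Finset ℕ} (hP : ∀ l ∈ P, l.Prime) (X : ℕ)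
    (c : (l : P) → I → ZMod ((l : ℕ) ^ 2)) :
    ((Fintype.piFinset fun _ : I => Icc (-(X : ℤ)) X).filter fun a => E1_cls P a = c).card ≤
      ((2 * X) / (∏ l ∈ P, l ^ 2) + 1) ^ Fintype.card I := by
  classical
  set M := ∏ l ∈ P, l ^ 2 with hM
  have hM0 : 0 < M := prod_pos fun l hl => pow_pos (hP l hl).pos 2
  have h1 : ((Fintype.piFinset fun _ : I => Icc (-(X : ℤ)) X).filter fun a => E1_cls P a = c) ⊆
      Fintype.piFinset fun j : I => (Icc (-(X : ℤ)) X).filter fun z =>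
        ∀ l : P, ((z : ℤ) : ZMod ((l : ℕ) ^ 2)) = c l j := by
    intro a ha
    rw [mem_filter, Fintype.mem_piFinset] at ha
    rw [Fintype.mem_piFinset]
    intro j
    rw [mem_filter]
    exact ⟨ha.1 j, fun l => by rw [← ha.2]; rfl⟩
  refine (card_le_card h1).trans ?_
  rw [Fintype.card_piFinset]
  refine (prod_le_pow_card _ _ ((2 * X) / M + 1) fun j _ => ?_).trans
    (by rw [Finset.card_univ])
  have h2 : ((Icc (-(X : ℤ)) X).filter fun z => ∀ l : P, ((z : ℤ) : ZMod ((l : ℕ) ^ 2)) = c l j).card ≤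
      (range ((2 * X) / M + 1)).card := by
    refine card_le_card_of_injOn (fun z => ((z + X) / (M : ℤ)).toNat) ?_ ?_
    · intro z hz
      rw [mem_coe, mem_filter, mem_Icc] at hz
      rw [mem_coe, mem_range]
      have h3 : 0 ≤ (z + X) / (M : ℤ) := Int.ediv_nonneg (by linarith [hz.1.1]) (by positivity)
      have h4 : (z + X) / (M : ℤ) ≤ (2 * X : ℤ) / M :=
        Int.ediv_le_ediv (by exact_mod_cast hM0) (by linarith [hz.1.2])
      have h5 : (((2 * X) / M : ℕ) : ℤ) = (2 * X : ℤ) / M := by push_cast; rfl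
      show ((z + X) / (M : ℤ)).toNat < _
      omega
    · intro z hz z' hz' h
      rw [mem_coe, mem_filter, mem_Icc] at hz hz'
      have h3 : 0 ≤ (z + X) / (M : ℤ) := Int.ediv_nonneg (by linarith [hz.1.1]) (by positivity)
      have h3' : 0 ≤ (z' + X) / (M : ℤ) := Int.ediv_nonneg (by linarith [hz'.1.1]) (by positivity)
      have h4 : (z + X) / (M : ℤ) = (z' + X) / (M : ℤ) := by
        have : ((z + X) / (M : ℤ)).toNat = ((z' + X) / (M : ℤ)).toNat := h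
        omega
      have h5 : (M : ℤ) ∣ (z + X) - (z' + X) := by
        rw [hM]
        push_cast
        refine Finset.prod_dvd_of_coprime (fun l hl l' hl' hne => ?_) fun l hl => ?_
        · exact (Nat.isCoprime_iff_coprime.2
            ((Nat.coprime_primes (hP l hl) (hP l' hl')).2 hne)).pow
        · have h6 := (hz.2 ⟨l, hl⟩).trans (hz'.2 ⟨l, hl⟩).symm
          have h7 : (((z - z' : ℤ)) : ZMod (l ^ 2)) = 0 := by
            push_cast
            exact sub_eq_zero.2 h6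
          rw [ZMod.intCast_zmod_eq_zero_iff_dvd] at h7
          push_cast at h7
          have e : z + X - (z' + X) = z - z' := by ring
          rwa [e]
      have h6 : (z + X) % (M : ℤ) = (z' + X) % (M : ℤ) := (Int.modEq_iff_dvd.2 h5).symm
      have h7 := Int.emod_add_mul_ediv (z + X) M
      have h8 := Int.emod_add_mul_ediv (z' + X) M
      rw [h6, h4] at h7
      linarith
  rwa [card_range] at h2

theorem E1_sum_box {k : ℕ} (E : Fin k → (l : ℕ) → Set (I → ZMod (l ^ 2))) {c : ℝ}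
    {P : Finset ℕ} (hP : ∀ l ∈ P, l.Prime) (i : Fin k)
    (hE : ∀ l ∈ P, c / l * ((l : ℝ) ^ 2) ^ Fintype.card I ≤ Nat.card (E i l)) (X : ℕ) :
    ∑ a ∈ Fintype.piFinset (fun _ : I => Icc (-(X : ℤ)) X), ∏ l : P, E1_wt E i l (E1_cls P a l) ≤
      (((2 * X) / (∏ l ∈ P, l ^ 2) + 1 : ℕ) : ℝ) ^ Fintype.card I *
        ((((∏ l ∈ P, l ^ 2 : ℕ) : ℝ)) ^ Fintype.card I *
          Real.exp (-(c / 2 * ∑ l ∈ P, (l : ℝ)⁻¹))) := by
  classical
  have : ∀ l : P, NeZero ((l : ℕ) ^ 2) := fun l => ⟨pow_ne_zero 2 (hP l.1 l.2).ne_zero⟩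
  have h1 : ∑ a ∈ Fintype.piFinset (fun _ : I => Icc (-(X : ℤ)) X),
      ∏ l : P, E1_wt E i l (E1_cls P a l) =
      ∑ c : ((l : P) → I → ZMod ((l : ℕ) ^ 2)),
        (((Fintype.piFinset fun _ : I => Icc (-(X : ℤ)) X).filter
          fun a => E1_cls P a = c).card : ℝ) * ∏ l : P, E1_wt E i l (c l) := by
    rw [← sum_fiberwise (Fintype.piFinset fun _ : I => Icc (-(X : ℤ)) X) (fun a => E1_cls P a)]
    refine sum_congr rfl fun c _ => ?_
    rw [← nsmul_eq_mul, ← sum_const]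
    refine sum_congr rfl fun a ha => ?_
    rw [(mem_filter.1 ha).2]
  rw [h1]
  have h2 : ∑ c : ((l : P) → I → ZMod ((l : ℕ) ^ 2)), ∏ l : P, E1_wt E i l (c l) =
      ∏ l : P, ∑ y : I → ZMod ((l : ℕ) ^ 2), E1_wt E i l y := by
    rw [prod_univ_sum]
    simp
  have h3 : ∏ l : P, ∑ y : I → ZMod ((l : ℕ) ^ 2), E1_wt E i l y ≤
      (((∏ l ∈ P, l ^ 2 : ℕ) : ℝ)) ^ Fintype.card I *
        Real.exp (-(c / 2 * ∑ l ∈ P, (l : ℝ)⁻¹)) := by
    calc ∏ l : P, ∑ y : I → ZMod ((l : ℕ) ^ 2), E1_wt E i l y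
        ≤ ∏ l : P, ((((l : ℕ) : ℝ) ^ 2) ^ Fintype.card I *
            Real.exp (-(c / 2 / ((l : ℕ) : ℝ)))) :=
          prod_le_prod (fun l _ => sum_nonneg fun y _ => E1_wt_nonneg E i l y)
            fun l _ => E1_sum_wt E i (hE l.1 l.2)
      _ = ∏ l ∈ P, (((l : ℝ) ^ 2) ^ Fintype.card I * Real.exp (-(c / 2 / (l : ℝ)))) :=
          prod_coe_sort P fun l =>
            (((l : ℝ) ^ 2) ^ Fintype.card I * Real.exp (-(c / 2 / (l : ℝ))))
      _ = _ := by
          rw [prod_mul_distrib, prod_pow, ← Real.exp_sum]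
          push_cast
          congr 2
          rw [sum_neg_distrib, mul_sum]
          rfl
  calc ∑ c : ((l : P) → I → ZMod ((l : ℕ) ^ 2)),
        (((Fintype.piFinset fun _ : I => Icc (-(X : ℤ)) X).filter
          fun a => E1_cls P a = c).card : ℝ) * ∏ l : P, E1_wt E i l (c l)
      ≤ ∑ c : ((l : P) → I → ZMod ((l : ℕ) ^ 2)),
        (((2 * X) / (∏ l ∈ P, l ^ 2) + 1 : ℕ) : ℝ) ^ Fintype.card I *
          ∏ l : P, E1_wt E i l (c l) := by
        refine sum_le_sum fun c _ => mul_le_mul_of_nonneg_right ?_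
          (prod_nonneg fun l _ => E1_wt_nonneg E i l _)
        exact_mod_cast E1_fiber_card hP X c
    _ = (((2 * X) / (∏ l ∈ P, l ^ 2) + 1 : ℕ) : ℝ) ^ Fintype.card I *
        ∏ l : P, ∑ y : I → ZMod ((l : ℕ) ^ 2), E1_wt E i l y := by
        rw [← mul_sum, h2]
    _ ≤ _ := mul_le_mul_of_nonneg_left h3 (by positivity)

end E1

theorem E1_exists_primes {Q : Set ℕ} (hQs : ¬ Summable (Q.indicator fun l : ℕ => (l : ℝ)⁻¹))
    (C : ℝ) : ∃ P : Finset ℕ, (∀ l ∈ P, l ∈ Q) ∧ C ≤ ∑ l ∈ P, (l : ℝ)⁻¹ := by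
  classical
  by_contra hcon
  push Not at hcon
  apply hQs
  refine summable_of_sum_le (c := C) (fun l => Set.indicator_nonneg (fun l _ => by positivity) l) ?_
  intro u
  have h1 := hcon (u.filter fun l => l ∈ Q) (fun l hl => (mem_filter.1 hl).2)
  refine le_trans (le_of_eq ?_) h1.le
  rw [sum_filter]
  refine sum_congr rfl fun l _ => ?_
  rw [Set.indicator_apply]

open NumberField IsDedekindDomain

/-- almost all integral points satisfy many of infinitely many independent congruence conditions -/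
theorem e1 {I : Type} [Fintype I] {k : ℕ} {Q : Set ℕ} (hQ : ∀ l ∈ Q, l.Prime)
    (hQs : ¬ Summable (Q.indicator fun l : ℕ => (l : ℝ)⁻¹))
    (E : Fin k → (l : ℕ) → Set (I → ZMod (l ^ 2))) {c : ℝ} (hc : 0 < c)
    (hE : ∀ i, ∀ l ∈ Q, c / l * ((l : ℝ) ^ 2) ^ Fintype.card I ≤ Nat.card (E i l)) (N : ℕ) {ε : ℝ}
    (hε : 0 < ε) : ∃ X₀ : ℕ, ∀ X : ℕ, X₀ ≤ X →
      (Nat.card {a : I → ℤ // (∀ j, |a j| ≤ X) ∧ ∃ i, ∀ s : Finset ℕ,
        (∀ l ∈ s, l ∈ Q ∧ (fun j => ((a j : ℤ) : ZMod (l ^ 2))) ∈ E i l) → s.card ≤ N} : ℝ) ≤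
          ε * (2 * X + 1) ^ Fintype.card I := by
  classical
  rcases Nat.eq_zero_or_pos k with hk0 | hk
  · subst hk0
    refine ⟨0, fun X _ => ?_⟩
    have h0 : Nat.card {a : I → ℤ // (∀ j, |a j| ≤ X) ∧ ∃ i : Fin 0, ∀ s : Finset ℕ,
        (∀ l ∈ s, l ∈ Q ∧ (fun j => ((a j : ℤ) : ZMod (l ^ 2))) ∈ E i l) → s.card ≤ N} = 0 := by
      have : IsEmpty {a : I → ℤ // (∀ j, |a j| ≤ X) ∧ ∃ i : Fin 0, ∀ s : Finset ℕ,
          (∀ l ∈ s, l ∈ Q ∧ (fun j => ((a j : ℤ) : ZMod (l ^ 2))) ∈ E i l) → s.card ≤ N} :=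
        ⟨fun a => by obtain ⟨i, _⟩ := a.2.2; exact i.elim0⟩
      exact Nat.card_of_isEmpty
    rw [h0, Nat.cast_zero]
    positivity
  obtain ⟨d, hd⟩ : ∃ d, d = Fintype.card I := ⟨_, rfl⟩
  have hk' : (0 : ℝ) < k := by exact_mod_cast hk
  set δ : ℝ := ε / (2 ^ N * (k * 2 ^ Fintype.card I)) with hδ
  have hδ0 : 0 < δ := by positivity
  obtain ⟨P, hPQ, hC⟩ := E1_exists_primes hQs (2 / c * (-Real.log δ))
  have hPp : ∀ l ∈ P, l.Prime := fun l hl => hQ l (hPQ l hl)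
  set M := ∏ l ∈ P, l ^ 2 with hM
  have hM0 : 0 < M := prod_pos fun l hl => pow_pos (hPp l hl).pos 2
  have hexp : Real.exp (-(c / 2 * ∑ l ∈ P, (l : ℝ)⁻¹)) ≤ δ := by
    rw [← Real.le_log_iff_exp_le hδ0]
    have h1 : c / 2 * (2 / c * (-Real.log δ)) ≤ c / 2 * ∑ l ∈ P, (l : ℝ)⁻¹ :=
      mul_le_mul_of_nonneg_left hC (by positivity)
    have h2 : c / 2 * (2 / c * (-Real.log δ)) = -Real.log δ := by
      field_simp
    rw [h2] at h1
    linarith
  refine ⟨M, fun X hX => ?_⟩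
  set box := Fintype.piFinset fun _ : I => Icc (-(X : ℤ)) X with hbox
  have hcardEq : Nat.card {a : I → ℤ // (∀ j, |a j| ≤ X) ∧ ∃ i, ∀ s : Finset ℕ,
      (∀ l ∈ s, l ∈ Q ∧ (fun j => ((a j : ℤ) : ZMod (l ^ 2))) ∈ E i l) → s.card ≤ N} =
      (box.filter fun a => ∃ i, ∀ s : Finset ℕ,
        (∀ l ∈ s, l ∈ Q ∧ (fun j => ((a j : ℤ) : ZMod (l ^ 2))) ∈ E i l) → s.card ≤ N).card := by
    apply Nat.subtype_card
    intro a
    rw [mem_filter, hbox, Fintype.mem_piFinset]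
    simp only [mem_Icc, abs_le]
  rw [hcardEq]
  have key : ∀ a ∈ box.filter (fun a => ∃ i, ∀ s : Finset ℕ,
        (∀ l ∈ s, l ∈ Q ∧ (fun j => ((a j : ℤ) : ZMod (l ^ 2))) ∈ E i l) → s.card ≤ N),
      (1 : ℝ) ≤ ∑ i : Fin k, 2 ^ N * ∏ l : P, E1_wt E i l (E1_cls P a l) := by
    intro a ha
    obtain ⟨i, hi⟩ := (mem_filter.1 ha).2
    have hcard : (P.filter fun l => (fun j => ((a j : ℤ) : ZMod (l ^ 2))) ∈ E i l).card ≤ N :=
      hi _ fun l hl => ⟨hPQ l (mem_filter.1 hl).1, (mem_filter.1 hl).2⟩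
    have hprod : ∏ l : P, E1_wt E i l (E1_cls P a l) =
        (2 : ℝ)⁻¹ ^ (P.filter fun l => (fun j => ((a j : ℤ) : ZMod (l ^ 2))) ∈ E i l).card := by
      have h1 : ∏ l : P, E1_wt E i l (E1_cls P a l) =
          ∏ l ∈ P, if (fun j => ((a j : ℤ) : ZMod (l ^ 2))) ∈ E i l then (2 : ℝ)⁻¹ else 1 := by
        rw [← prod_coe_sort P]
        refine prod_congr rfl fun l _ => ?_
        rfl
      rw [h1, prod_ite, prod_const, prod_const_one, mul_one]
    have h1 : (1 : ℝ) ≤ 2 ^ N * ∏ l : P, E1_wt E i l (E1_cls P a l) := by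
      rw [hprod]
      have h2 : (2 : ℝ)⁻¹ ^ N ≤
          (2 : ℝ)⁻¹ ^ (P.filter fun l => (fun j => ((a j : ℤ) : ZMod (l ^ 2))) ∈ E i l).card :=
        pow_le_pow_of_le_one (by norm_num) (by norm_num) hcard
      calc (1 : ℝ) = 2 ^ N * (2 : ℝ)⁻¹ ^ N := by
            rw [← mul_pow, mul_inv_cancel₀ two_ne_zero, one_pow]
        _ ≤ _ := mul_le_mul_of_nonneg_left h2 (by positivity)
    refine h1.trans ?_
    exact single_le_sum
      (f := fun i : Fin k => (2 : ℝ) ^ N * ∏ l : P, E1_wt E i l (E1_cls P a l))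
      (fun i _ => mul_nonneg (by positivity) (prod_nonneg fun l _ => E1_wt_nonneg E i l _))
      (mem_univ i)
  have hKM : ((((2 * X) / M + 1 : ℕ) : ℝ)) ^ Fintype.card I * ((M : ℝ)) ^ Fintype.card I ≤
      2 ^ Fintype.card I * (2 * X + 1) ^ Fintype.card I := by
    rw [← mul_pow, ← mul_pow]
    refine pow_le_pow_left₀ (by positivity) ?_ _
    have h1 : ((2 * X) / M + 1) * M ≤ 2 * (2 * X + 1) := by
      have := Nat.div_mul_le_self (2 * X) M
      rw [add_mul, one_mul]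
      omega
    exact_mod_cast h1
  calc ((box.filter fun a => ∃ i, ∀ s : Finset ℕ,
        (∀ l ∈ s, l ∈ Q ∧ (fun j => ((a j : ℤ) : ZMod (l ^ 2))) ∈ E i l) → s.card ≤ N).card : ℝ)
      = ∑ _a ∈ box.filter (fun a => ∃ i, ∀ s : Finset ℕ,
        (∀ l ∈ s, l ∈ Q ∧ (fun j => ((a j : ℤ) : ZMod (l ^ 2))) ∈ E i l) → s.card ≤ N),
          (1 : ℝ) := by simp
    _ ≤ ∑ a ∈ box.filter (fun a => ∃ i, ∀ s : Finset ℕ,
        (∀ l ∈ s, l ∈ Q ∧ (fun j => ((a j : ℤ) : ZMod (l ^ 2))) ∈ E i l) → s.card ≤ N),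
        ∑ i : Fin k, 2 ^ N * ∏ l : P, E1_wt E i l (E1_cls P a l) := sum_le_sum key
    _ ≤ ∑ a ∈ box, ∑ i : Fin k, 2 ^ N * ∏ l : P, E1_wt E i l (E1_cls P a l) :=
        sum_le_sum_of_subset_of_nonneg (filter_subset _ _) fun a _ _ =>
          sum_nonneg fun i _ => mul_nonneg (by positivity)
            (prod_nonneg fun l _ => E1_wt_nonneg E i l _)
    _ = ∑ i : Fin k, 2 ^ N * ∑ a ∈ box, ∏ l : P, E1_wt E i l (E1_cls P a l) := by
        rw [sum_comm]
        exact sum_congr rfl fun i _ => (mul_sum _ _ _).symm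
    _ ≤ ∑ _i : Fin k, 2 ^ N * (2 ^ Fintype.card I * (2 * X + 1) ^ Fintype.card I * δ) := by
        refine sum_le_sum fun i _ => mul_le_mul_of_nonneg_left ?_ (by positivity)
        refine (E1_sum_box E hPp i (fun l hl => hE i l (hPQ l hl)) X).trans ?_
        rw [← mul_assoc]
        exact mul_le_mul hKM hexp (Real.exp_pos _).le (by positivity)
    _ = ε * (2 * X + 1) ^ Fintype.card I := by
        rw [sum_const, card_univ, Fintype.card_fin, nsmul_eq_mul, hδ]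
        field_simp

end Pool.Agent.AKG
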