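import Mathlib
namespace Pool.Agent.AKG


theorem K1_roots {F H : Type} [Field F] [Field H] [Algebra F H] {k : ℕ} (q : Fin k → ℕ)
    (hq : ∀ i, 0 < q i) (a : Fin k → F)
    [h : Polynomial.IsSplittingField F H
      (∏ i, (Polynomial.X ^ q i - Polynomial.C (a i)))] :
    ∃ b : Fin k → H, ∀ i, b i ^ q i = algebraMap F H (a i) := by
  have key : ∀ i, ∃ x : H, x ^ q i = algebraMap F H (a i) := by
    intro i
    have h1 := h.splits'
    rw [Polynomial.map_prod] at h1
    have hne : ∏ i, ((Polynomial.X ^ q i - Polynomial.C (a i)).map (algebraMap F H)) ≠ 0 := by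
      rw [Finset.prod_ne_zero_iff]
      intro j _
      rw [Polynomial.map_ne_zero_iff (algebraMap F H).injective]
      exact Polynomial.X_pow_sub_C_ne_zero (hq j) (a j)
    have h2 := Polynomial.Splits.of_dvd h1 hne (Finset.dvd_prod_of_mem _ (Finset.mem_univ i))
    have hdeg : ((Polynomial.X ^ q i - Polynomial.C (a i)).map (algebraMap F H)).degree ≠ 0 := by
      rw [Polynomial.degree_map, Polynomial.degree_X_pow_sub_C (hq i)]
      exact_mod_cast (hq i).ne'
    obtain ⟨x, hx⟩ := h2.exists_eval_eq_zero hdeg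
    refine ⟨x, ?_⟩
    simp only [Polynomial.map_sub, Polynomial.map_pow, Polynomial.map_X, Polynomial.map_C,
      Polynomial.eval_sub, Polynomial.eval_pow, Polynomial.eval_X, Polynomial.eval_C] at hx
    exact sub_eq_zero.1 hx
  choose b hb using key
  exact ⟨b, hb⟩

theorem k1 {F H : Type} [Field F] [Field H] [Algebra F H] {k : ℕ} (q : Fin k → ℕ)
    (hq : ∀ i, 0 < q i) (a : Fin k → F) {ζ : F} (hζ : IsPrimitiveRoot ζ (Finset.univ.lcm q))
    [h : Polynomial.IsSplittingField F H
      (∏ i, (Polynomial.X ^ q i - Polynomial.C (a i)))] :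
    ∃ b : Fin k → H, (∀ i, b i ^ q i = algebraMap F H (a i)) ∧
      IntermediateField.adjoin F (Set.range b) = ⊤ := by
  obtain ⟨b, hb⟩ := K1_roots (H := H) q hq a
  refine ⟨b, hb, ?_⟩
  have hn : 0 < Finset.univ.lcm q := by
    apply Nat.pos_of_ne_zero
    intro h0
    rw [Finset.lcm_eq_zero_iff] at h0
    obtain ⟨i, -, hi⟩ := h0
    exact (hq i).ne' hi
  rw [eq_top_iff]
  have h1 := h.adjoin_rootSet'
  have h2 : (⊤ : Subalgebra F H) ≤ (IntermediateField.adjoin F (Set.range b)).toSubalgebra := by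
    rw [← h1, Algebra.adjoin_le_iff]
    intro x hx
    rw [SetLike.mem_coe, IntermediateField.mem_toSubalgebra]
    rw [Polynomial.mem_rootSet] at hx
    obtain ⟨-, hx⟩ := hx
    rw [map_prod, Finset.prod_eq_zero_iff] at hx
    obtain ⟨i, -, hi⟩ := hx
    rw [map_sub, map_pow, Polynomial.aeval_X, Polynomial.aeval_C, ← hb i] at hi
    have hi' : x ^ q i = b i ^ q i := sub_eq_zero.1 hi
    have hbi : b i ∈ IntermediateField.adjoin F (Set.range b) :=
      IntermediateField.subset_adjoin F _ ⟨i, rfl⟩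
    by_cases h0 : b i = 0
    · rw [h0, zero_pow (hq i).ne'] at hi'
      rw [(pow_eq_zero_iff (hq i).ne').1 hi']
      exact zero_mem _
    · have hz : (x / b i) ^ q i = 1 := by
        rw [div_pow, hi', div_self (pow_ne_zero _ h0)]
      obtain ⟨m, hm⟩ : q i ∣ Finset.univ.lcm q := Finset.dvd_lcm (Finset.mem_univ i)
      have hζ1 : IsPrimitiveRoot (ζ ^ m) (q i) := hζ.pow hn (by rw [hm, mul_comm])
      have hζ' : IsPrimitiveRoot (algebraMap F H (ζ ^ m)) (q i) :=
        hζ1.map_of_injective (algebraMap F H).injective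
      have : NeZero (q i) := ⟨(hq i).ne'⟩
      obtain ⟨j, -, hj⟩ := hζ'.eq_pow_of_pow_eq_one hz
      have hx' : x = algebraMap F H ((ζ ^ m) ^ j) * b i := by
        rw [map_pow, hj, div_mul_cancel₀ _ h0]
      rw [hx']
      exact mul_mem (IntermediateField.algebraMap_mem _ _) hbi
  intro x _
  exact h2 (Algebra.mem_top)

end Pool.Agent.AKG
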